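import Mathlib

/-!
# Strict matching matroids: independence systems on finsets, coloops and series classes
-/

set_option autoImplicit false
set_option linter.unusedSectionVars false

open Finset

namespace Pool.Agent.X55.SMM

variable {α : Type} [Fintype α] [DecidableEq α]

/-- the independent sets of a matroid on the whole finite type `α` -/
structure IsMat (I : Finset α → Prop) : Prop where
  empty : I ∅
  sub : ∀ X Y, I Y → X ⊆ Y → I X
  aug : ∀ X Y, I X → I Y → X.card < Y.card → ∃ e ∈ Y, e ∉ X ∧ I (insert e X)

/-- `B` is a base, the rank being `r` -/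
def Base (I : Finset α → Prop) (B : Finset α) : Prop :=
  I B ∧ ∀ X, I X → X.card ≤ B.card

theorem exists_base {I : Finset α → Prop} (h : IsMat I) : ∃ B, Base I B := by
  classical
  obtain ⟨B, hB, hmax⟩ := exists_max_image (univ.filter I) (fun X => X.card)
    ⟨∅, by simp [h.empty]⟩
  rw [mem_filter] at hB
  exact ⟨B, hB.2, fun X hX => hmax X (by simp [hX])⟩

theorem base_card {I : Finset α → Prop} {B B' : Finset α} (hB : Base I B) (hB' : Base I B') :
    B.card = B'.card := le_antisymm (hB'.2 B hB.1) (hB.2 B' hB'.1)

theorem base_of_card {I : Finset α → Prop} {B B' : Finset α} (hB : Base I B) (hB' : I B')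
    (h : B.card ≤ B'.card) : Base I B' := ⟨hB', fun X hX => (hB.2 X hX).trans h⟩

/-- extending an independent set to a base inside the union with a given base -/
theorem ext_base {I : Finset α → Prop} (h : IsMat I) {X B : Finset α} (hX : I X)
    (hB : Base I B) : ∃ B', Base I B' ∧ X ⊆ B' ∧ B' ⊆ X ∪ B := by
  induction hn : B.card - X.card using Nat.strong_induction_on generalizing X with
  | _ n ih =>
    rcases Nat.lt_or_ge X.card B.card with hlt | hge
    · obtain ⟨e, heB, heX, hI⟩ := h.aug X B hX hB.1 hlt
      have hc : (insert e X).card = X.card + 1 := card_insert_of_notMem heX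
      obtain ⟨B', h1, h2, h3⟩ := ih (B.card - (insert e X).card) (by omega) hI rfl
      refine ⟨B', h1, (subset_insert e X).trans h2, h3.trans ?_⟩
      intro y hy
      rw [mem_union, mem_insert] at hy
      rw [mem_union]
      rcases hy with (rfl | hy) | hy
      · exact Or.inr heB
      · exact Or.inl hy
      · exact Or.inr hy
    · exact ⟨X, base_of_card hB hX hge, subset_rfl, subset_union_left⟩

theorem ext_base' {I : Finset α → Prop} (h : IsMat I) {X : Finset α} (hX : I X) :
    ∃ B', Base I B' ∧ X ⊆ B' := by
  obtain ⟨B, hB⟩ := exists_base h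
  obtain ⟨B', h1, h2, _⟩ := ext_base h hX hB
  exact ⟨B', h1, h2⟩

/-- `e` is a coloop -/
def Col (I : Finset α → Prop) (e : α) : Prop := ∀ B, Base I B → e ∈ B

/-- every base contains `e` or `f` -/
def Ser (I : Finset α → Prop) (e f : α) : Prop := ∀ B, Base I B → e ∈ B ∨ f ∈ B

theorem ser_trans {I : Finset α → Prop} (h : IsMat I) {e f g : α} (hf : ¬ Col I f)
    (hef : Ser I e f) (hfg : Ser I f g) (heg : e ≠ g) : Ser I e g := by
  intro B hB
  by_contra hcon
  push Not at hcon
  obtain ⟨he, hg⟩ := hcon
  have hfB : f ∈ B := (hef B hB).resolve_left he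
  unfold Col at hf
  push Not at hf
  obtain ⟨B1, hB1, hf1⟩ := hf
  have h1 : I (B.erase f) := h.sub _ _ hB.1 (erase_subset f B)
  have h2 : (B.erase f).card < B1.card := by
    rw [card_erase_of_mem hfB, base_card hB1 hB]
    have : 0 < B.card := card_pos.2 ⟨f, hfB⟩
    omega
  obtain ⟨x, hx1, hx2, hI⟩ := h.aug _ _ h1 hB1.1 h2
  have hxf : x ≠ f := fun hh => hf1 (hh ▸ hx1)
  have hbase : Base I (insert x (B.erase f)) := by
    refine base_of_card hB hI ?_
    rw [card_insert_of_notMem hx2, card_erase_of_mem hfB]
    omega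
  have hfn : f ∉ insert x (B.erase f) := by
    rw [mem_insert]
    rintro (hh | hh)
    · exact hxf hh.symm
    · exact (notMem_erase f B) hh
  have key1 := (hef _ hbase).resolve_right hfn
  have key2 := (hfg _ hbase).resolve_left hfn
  rw [mem_insert, mem_erase] at key1 key2
  have e1 : e = x := by
    rcases key1 with hh | hh
    · exact hh
    · exact absurd hh.2 he
  have e2 : g = x := by
    rcases key2 with hh | hh
    · exact hh
    · exact absurd hh.2 hg
  exact heg (e1.trans e2.symm)

open Classical in
/-- the coloops -/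
noncomputable def L (I : Finset α → Prop) : Finset α := univ.filter (Col I)

open Classical in
/-- the elements which are not coloops -/
noncomputable def D (I : Finset α → Prop) : Finset α := univ.filter (fun e => ¬ Col I e)

open Classical in
/-- the series class of `e` -/
noncomputable def cls (I : Finset α → Prop) (e : α) : Finset α :=
  (D I).filter (fun f => f = e ∨ Ser I e f)

/-- all series classes -/
noncomputable def classes (I : Finset α → Prop) : Finset (Finset α) := (D I).image (cls I)

theorem mem_L {I : Finset α → Prop} {e : α} : e ∈ L I ↔ Col I e := by simp [L]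
theorem mem_D {I : Finset α → Prop} {e : α} : e ∈ D I ↔ ¬ Col I e := by simp [D]

theorem mem_D_or_L (I : Finset α → Prop) (e : α) : e ∈ D I ∨ e ∈ L I := by
  rw [mem_D, mem_L]; tauto

theorem disj_LD (I : Finset α → Prop) : Disjoint (L I) (D I) := by
  rw [disjoint_left]
  intro e h1 h2
  exact (mem_D.1 h2) (mem_L.1 h1)

theorem L_union_D (I : Finset α → Prop) : L I ∪ D I = univ := by
  ext e
  simp only [mem_union, mem_univ, iff_true]
  exact (mem_D_or_L I e).symm

theorem L_subset {I : Finset α → Prop} {B : Finset α} (hB : Base I B) : L I ⊆ B :=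
  fun _ he => mem_L.1 he B hB

theorem mem_cls {I : Finset α → Prop} {e f : α} :
    f ∈ cls I e ↔ f ∈ D I ∧ (f = e ∨ Ser I e f) := by simp [cls]

theorem self_mem_cls {I : Finset α → Prop} {e : α} (he : e ∈ D I) : e ∈ cls I e :=
  mem_cls.2 ⟨he, Or.inl rfl⟩

theorem ser_symm {I : Finset α → Prop} {e f : α} (h : Ser I e f) : Ser I f e :=
  fun B hB => (h B hB).symm

theorem cls_eq_of_mem {I : Finset α → Prop} (h : IsMat I) {e f : α} (he : e ∈ D I)
    (hf : f ∈ cls I e) : cls I f = cls I e := by
  rw [mem_cls] at hf
  obtain ⟨hfD, hf⟩ := hf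
  rcases hf with rfl | hf
  · rfl
  ext g
  rw [mem_cls, mem_cls]
  constructor
  · rintro ⟨hg, hh⟩
    refine ⟨hg, ?_⟩
    rcases hh with rfl | hh
    · exact Or.inr hf
    · by_cases hge : g = e
      · exact Or.inl hge
      · exact Or.inr (ser_trans h (mem_D.1 hfD) hf hh (fun hh => hge hh.symm))
  · rintro ⟨hg, hh⟩
    refine ⟨hg, ?_⟩
    rcases hh with rfl | hh
    · exact Or.inr (ser_symm hf)
    · by_cases hgf : g = f
      · exact Or.inl hgf
      · exact Or.inr (ser_trans h (mem_D.1 he) (ser_symm hf) hh (fun hh => hgf hh.symm))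

theorem cls_subset (I : Finset α → Prop) (e : α) : cls I e ⊆ D I := fun _ hf => (mem_cls.1 hf).1

theorem mem_classes {I : Finset α → Prop} {P : Finset α} :
    P ∈ classes I ↔ ∃ e ∈ D I, cls I e = P := by simp [classes]

theorem classes_subset {I : Finset α → Prop} {P : Finset α} (hP : P ∈ classes I) : P ⊆ D I := by
  obtain ⟨e, _, rfl⟩ := mem_classes.1 hP
  exact cls_subset I e

theorem classes_nonempty {I : Finset α → Prop} {P : Finset α} (hP : P ∈ classes I) :
    P.Nonempty := by
  obtain ⟨e, he, rfl⟩ := mem_classes.1 hP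
  exact ⟨e, self_mem_cls he⟩

theorem cls_eq_of_mem_classes {I : Finset α → Prop} (h : IsMat I) {P : Finset α}
    (hP : P ∈ classes I) {e : α} (he : e ∈ P) : cls I e = P := by
  obtain ⟨f, hf, rfl⟩ := mem_classes.1 hP
  exact cls_eq_of_mem h hf he

theorem cls_mem_classes {I : Finset α → Prop} {e : α} (he : e ∈ D I) : cls I e ∈ classes I :=
  mem_classes.2 ⟨e, he, rfl⟩

theorem classes_eq {I : Finset α → Prop} (h : IsMat I) {P Q : Finset α}
    (hP : P ∈ classes I) (hQ : Q ∈ classes I) {e : α} (h1 : e ∈ P) (h2 : e ∈ Q) : P = Q := by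
  rw [← cls_eq_of_mem_classes h hP h1, cls_eq_of_mem_classes h hQ h2]

/-- two different elements of a class are in series -/
theorem ser_of_mem {I : Finset α → Prop} (h : IsMat I) {P : Finset α}
    (hP : P ∈ classes I) {e f : α} (he : e ∈ P) (hf : f ∈ P) (hne : e ≠ f) : Ser I e f := by
  have h1 := cls_eq_of_mem_classes h hP he
  rw [← h1, mem_cls] at hf
  rcases hf.2 with hh | hh
  · exact absurd hh.symm hne
  · exact hh

/-- a base missing an element of a class contains all the others -/
theorem erase_subset_base {I : Finset α → Prop} (h : IsMat I) {P : Finset α}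
    (hP : P ∈ classes I) {B : Finset α} (hB : Base I B) {p : α} (hp : p ∈ P) (hpB : p ∉ B) :
    P.erase p ⊆ B := by
  intro q hq
  rw [mem_erase] at hq
  exact (ser_of_mem h hP hp hq.2 (Ne.symm hq.1) B hB).resolve_left hpB

theorem exists_base_notMem {I : Finset α → Prop} {p : α} (hp : p ∈ D I) :
    ∃ B, Base I B ∧ p ∉ B := by
  have := mem_D.1 hp
  unfold Col at this
  push Not at this
  exact this

theorem card_inter_class {I : Finset α → Prop} (h : IsMat I) {P : Finset α}
    (hP : P ∈ classes I) {B : Finset α} (hB : Base I B) : P.card - 1 ≤ (P ∩ B).card := by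
  by_cases hPB : P ⊆ B
  · rw [inter_eq_left.2 hPB]; omega
  · obtain ⟨p, hp, hpB⟩ := not_subset.1 hPB
    have h1 := erase_subset_base h hP hB hp hpB
    have h2 : P.erase p ⊆ P ∩ B := subset_inter (erase_subset p P) h1
    have h3 := card_le_card h2
    rwa [card_erase_of_mem hp] at h3

/-- coloops are free -/
theorem indep_iff_inter {I : Finset α → Prop} (h : IsMat I) (X : Finset α) :
    I X ↔ I (X ∩ D I) := by
  constructor
  · intro hX
    exact h.sub _ _ hX inter_subset_left
  · intro hX
    obtain ⟨B, hB, hs⟩ := ext_base' h hX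
    refine h.sub _ _ hB.1 ?_
    intro x hx
    rcases mem_D_or_L I x with hh | hh
    · exact hs (mem_inter.2 ⟨hx, hh⟩)
    · exact L_subset hB hh

theorem base_card_split {I : Finset α → Prop} {B : Finset α} (hB : Base I B) :
    B.card = (L I).card + (B ∩ D I).card := by
  have h1 : B = L I ∪ (B ∩ D I) := by
    ext x
    rw [mem_union, mem_inter]
    constructor
    · intro hx
      rcases mem_D_or_L I x with hh | hh
      · exact Or.inr ⟨hx, hh⟩
      · exact Or.inl hh
    · rintro (hh | hh)
      · exact L_subset hB hh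
      · exact hh.1
  conv_lhs => rw [h1]
  rw [card_union_of_disjoint]
  exact (disj_LD I).mono_right inter_subset_right

/-- independent subsets of `D` are small -/
theorem card_le_of_subset_D {I : Finset α → Prop} (h : IsMat I) {B X : Finset α}
    (hB : Base I B) (hX : I X) (hXD : X ⊆ D I) : X.card ≤ (B ∩ D I).card := by
  obtain ⟨B', hB', hs⟩ := ext_base' h hX
  have h1 := base_card_split hB
  have h2 := base_card_split hB'
  have h3 := base_card hB hB'
  have h4 : X.card ≤ (B' ∩ D I).card := card_le_card (subset_inter hs hXD)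
  omega

end Pool.Agent.X55.SMM
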