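import Pool.Agent.X55.SMM.Main

/-!
# Strict matching matroids: matchings of graphs and Mathlib matroids
-/

set_option autoImplicit false
set_option linter.unusedSectionVars false

open Finset

namespace Pool.Agent.X55.SMM

/-- `X` is covered by a matching of `G` -/
def Covered {V : Type} (G : SimpleGraph V) (X : Set V) : Prop :=
  ∃ W : G.Subgraph, W.IsMatching ∧ X ⊆ W.verts

theorem covered_iff {V : Type} [Fintype V] [DecidableEq V] (G : SimpleGraph V) (X : Finset V) :
    Covered G (X : Set V) ↔ ∃ S, X ⊆ S ∧ Pm G S := by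
  classical
  constructor
  · rintro ⟨W, hW, hX⟩
    refine ⟨W.verts.toFinset, ?_, ?_⟩
    · intro x hx
      rw [Set.mem_toFinset]
      exact hX (mem_coe.2 hx)
    · have hW' : ∀ v, ∃ w, v ∈ W.verts → (W.Adj v w ∧ ∀ y, W.Adj v y → y = w) := by
        intro v
        by_cases hv : v ∈ W.verts
        · obtain ⟨w, h1, h2⟩ := hW hv
          exact ⟨w, fun _ => ⟨h1, h2⟩⟩
        · exact ⟨v, fun hh => absurd hh hv⟩
      choose σ hσ using hW'
      refine ⟨σ, ?_⟩
      intro x hx
      rw [Set.mem_toFinset] at hx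
      have h3 : W.Adj x (σ x) := (hσ x hx).1
      refine ⟨?_, ?_, h3.adj_sub⟩
      · rw [Set.mem_toFinset]
        exact W.edge_vert h3.symm
      · exact ((hσ (σ x) (W.edge_vert h3.symm)).2 x h3.symm).symm
  · rintro ⟨S, hXS, σ, hσ⟩
    refine ⟨{ verts := (S : Set V)
              Adj := fun x y => x ∈ S ∧ y = σ x
              adj_sub := ?_
              edge_vert := ?_
              symm := ?_ }, ?_, ?_⟩
    · rintro x y ⟨hx, rfl⟩
      exact (hσ x hx).2.2
    · rintro x y ⟨hx, _⟩
      exact mem_coe.2 hx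
    · constructor
      rintro x y ⟨hx, rfl⟩
      exact ⟨(hσ x hx).1, (hσ x hx).2.1.symm⟩
    · intro x hx
      exact ⟨σ x, ⟨mem_coe.1 hx, rfl⟩, fun y hy => hy.2⟩
    · intro x hx
      exact mem_coe.2 (hXS (mem_coe.1 hx))

/-- perfect matchings are carried over by bijections -/
theorem pm_comap {V α : Type} [Fintype V] [DecidableEq V] [Fintype α] [DecidableEq α]
    (G : SimpleGraph V) (f : V ≃ α) (S : Finset V) :
    Pm G S ↔ Pm (G.comap f.symm) (S.map f.toEmbedding) := by
  constructor
  · rintro ⟨σ, hσ⟩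
    refine ⟨fun x => f (σ (f.symm x)), ?_⟩
    intro x hx
    obtain ⟨y, hy, rfl⟩ := mem_map.1 hx
    obtain ⟨h1, h2, h3⟩ := hσ y hy
    simp only [Equiv.coe_toEmbedding, Equiv.symm_apply_apply]
    refine ⟨mem_map.2 ⟨σ y, h1, rfl⟩, by rw [h2], ?_⟩
    simpa using h3
  · rintro ⟨σ, hσ⟩
    refine ⟨fun y => f.symm (σ (f y)), ?_⟩
    intro y hy
    obtain ⟨h1, h2, h3⟩ := hσ (f y) (mem_map.2 ⟨y, hy, rfl⟩)
    obtain ⟨z, hz, hz'⟩ := mem_map.1 h1
    refine ⟨?_, ?_, ?_⟩
    · show f.symm (σ (f y)) ∈ S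
      rw [← hz']
      simpa using hz
    · simp only [Equiv.apply_symm_apply, h2, Equiv.symm_apply_apply]
    · simpa using h3

variable {α : Type}

/-- `M` is isomorphic to `match(G)` for some graph `G` -/
def IsStrictMatching (M : Matroid α) : Prop :=
  ∃ (V : Type) (G : SimpleGraph V) (f : V ≃ α), ∀ X : Set V, M.Indep (f '' X) ↔ Covered G X

/-- `M` is transversal: the independent sets are the partial transversals of a finite family -/
def IsTransversal (M : Matroid α) : Prop :=
  ∃ (m : ℕ) (A : Fin m → Set α), ∀ X : Set α,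
    M.Indep X ↔ ∃ g : X → Fin m, Function.Injective g ∧ ∀ x : X, (x : α) ∈ A (g x)

/-- the elements of all bases -/
def coloops (M : Matroid α) : Set α := {e | ∀ B, M.IsBase B → e ∈ B}

/-- the series class of `e` -/
def seriesClass (M : Matroid α) (e : α) : Set α :=
  {f | f ∉ coloops M ∧ (f = e ∨ ∀ B, M.IsBase B → e ∈ B ∨ f ∈ B)}

/-- the series classes -/
def seriesClasses (M : Matroid α) : Set (Set α) :=
  {P | ∃ e, e ∉ coloops M ∧ P = seriesClass M e}

variable [Fintype α] [DecidableEq α]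

/-- the independent finsets -/
def ind (M : Matroid α) (X : Finset α) : Prop := M.Indep (X : Set α)

theorem isMat (M : Matroid α) : IsMat (ind M) := by
  refine ⟨?_, ?_, ?_⟩
  · show M.Indep ((∅ : Finset α) : Set α)
    rw [coe_empty]
    exact M.empty_indep
  · intro X Y hY hXY
    exact Matroid.Indep.subset hY (by exact_mod_cast hXY)
  · intro X Y hX hY hlt
    obtain ⟨e, he1, he2, he3⟩ := Matroid.Indep.augment_finset hX hY hlt
    refine ⟨e, he1, he2, ?_⟩
    show M.Indep ((insert e X : Finset α) : Set α)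
    rw [coe_insert]
    exact he3

theorem base_iff (M : Matroid α) (B : Finset α) : Base (ind M) B ↔ M.IsBase (B : Set α) := by
  classical
  constructor
  · rintro ⟨h1, h2⟩
    refine Matroid.Indep.isBase_of_maximal h1 ?_
    intro J hJ hBJ
    have e1 : ((J.toFinset : Finset α) : Set α) = J := by simp
    have h3 := h2 J.toFinset (by show M.Indep _; rw [e1]; exact hJ)
    have h4 : B ⊆ J.toFinset := by
      intro x hx
      rw [Set.mem_toFinset]
      exact hBJ (mem_coe.2 hx)
    rw [← e1, eq_of_subset_of_card_le h4 h3]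
  · intro hB
    obtain ⟨B', hB'⟩ := exists_base (isMat M)
    have h1 : ind M B := hB.indep
    obtain ⟨B'', h2, h3, _⟩ := ext_base (isMat M) h1 hB'
    have h4 : (B : Set α) = B'' := hB.eq_of_subset_indep h2.1 (by exact_mod_cast h3)
    have h5 : B = B'' := by exact_mod_cast h4
    rw [h5]
    exact h2

theorem forall_base_iff (M : Matroid α) (p : Set α → Prop) :
    (∀ B, M.IsBase B → p B) ↔ ∀ B : Finset α, Base (ind M) B → p (B : Set α) := by
  classical
  constructor
  · intro h B hB
    exact h _ ((base_iff M B).1 hB)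
  · intro h B hB
    have e1 : ((B.toFinset : Finset α) : Set α) = B := by simp
    have h2 := h B.toFinset (by rw [base_iff, e1]; exact hB)
    rwa [e1] at h2

theorem coloops_eq (M : Matroid α) : coloops M = (L (ind M) : Set α) := by
  ext e
  rw [mem_coe, mem_L]
  show (∀ B, M.IsBase B → e ∈ B) ↔ _
  rw [forall_base_iff M (fun B => e ∈ B)]
  simp only [mem_coe]
  rfl

theorem seriesClass_eq (M : Matroid α) (e : α) :
    seriesClass M e = (cls (ind M) e : Set α) := by
  ext f
  rw [mem_coe, mem_cls, mem_D]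
  show (f ∉ coloops M ∧ (f = e ∨ ∀ B, M.IsBase B → e ∈ B ∨ f ∈ B)) ↔ _
  rw [forall_base_iff M (fun B => e ∈ B ∨ f ∈ B), coloops_eq, mem_coe, mem_L]
  simp only [mem_coe]
  rfl

theorem seriesClasses_eq (M : Matroid α) :
    seriesClasses M = (fun P : Finset α => (P : Set α)) '' (classes (ind M) : Set (Finset α)) := by
  ext P
  simp only [Set.mem_image, mem_coe]
  constructor
  · rintro ⟨e, he, rfl⟩
    rw [coloops_eq, mem_coe, mem_L] at he
    exact ⟨cls (ind M) e, cls_mem_classes (mem_D.2 he), (seriesClass_eq M e).symm⟩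
  · rintro ⟨Q, hQ, rfl⟩
    obtain ⟨e, he, rfl⟩ := mem_classes.1 hQ
    refine ⟨e, ?_, (seriesClass_eq M e).symm⟩
    rw [coloops_eq, mem_coe, mem_L]
    exact mem_D.1 he

theorem sum_eq (M : Matroid α) : ∑ᶠ P ∈ seriesClasses M, (P.ncard - 1) / 2 =
    ∑ P ∈ classes (ind M), (P.card - 1) / 2 := by
  rw [seriesClasses_eq, finsum_mem_image (by
    intro a _ b _ hab
    exact Finset.coe_injective hab), finsum_mem_coe_finset]
  simp only [Set.ncard_coe_finset]

theorem strict_iff (M : Matroid α) : IsStrictMatching M ↔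
    ∃ G : SimpleGraph α, ∀ X, ind M X ↔ ∃ S, X ⊆ S ∧ Pm G S := by
  classical
  constructor
  · rintro ⟨V, G, f, h⟩
    have : Fintype V := Fintype.ofEquiv α f.symm
    refine ⟨G.comap f.symm, ?_⟩
    intro X
    have e1 : (f '' ((X.map f.symm.toEmbedding : Finset V) : Set V)) = (X : Set α) := by
      ext x
      simp
    have h1 := h ((X.map f.symm.toEmbedding : Finset V) : Set V)
    rw [e1] at h1
    show M.Indep (X : Set α) ↔ _
    rw [h1, covered_iff]
    constructor
    · rintro ⟨S, hS, hpm⟩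
      refine ⟨S.map f.toEmbedding, ?_, (pm_comap G f S).1 hpm⟩
      intro x hx
      have h2 := hS (mem_map.2 ⟨x, hx, rfl⟩)
      refine mem_map.2 ⟨f.symm x, h2, ?_⟩
      simp
    · rintro ⟨S, hS, hpm⟩
      refine ⟨S.map f.symm.toEmbedding, ?_, ?_⟩
      · intro x hx
        obtain ⟨y, hy, rfl⟩ := mem_map.1 hx
        exact mem_map.2 ⟨y, hS hy, rfl⟩
      · rw [pm_comap G f]
        have e2 : (S.map f.symm.toEmbedding).map f.toEmbedding = S := by
          ext x
          simp
        rw [e2]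
        exact hpm
  · rintro ⟨G, hG⟩
    refine ⟨α, G, Equiv.refl α, ?_⟩
    intro X
    have e1 : ((X.toFinset : Finset α) : Set α) = X := by simp
    have h1 := hG X.toFinset
    rw [← covered_iff, e1] at h1
    unfold ind at h1
    rw [e1] at h1
    simpa using h1

theorem transversal_mt {M : Matroid α} (h : IsTransversal M) :
    ∃ (m : ℕ) (R : α → Option (Fin m) → Prop), ∀ X, ind M X ↔ Mt R X univ := by
  classical
  obtain ⟨m, A, hA⟩ := h
  refine ⟨m, fun x i => ∃ j, i = some j ∧ x ∈ A j, ?_⟩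
  intro X
  unfold ind
  rw [hA]
  constructor
  · rintro ⟨g, hg1, hg2⟩
    refine ⟨fun x => if hx : x ∈ (X : Set α) then some (g ⟨x, hx⟩) else none, ?_, ?_⟩
    · intro x hx y hy hxy
      simp only [hx, hy, dif_pos, Option.some.injEq] at hxy
      have := hg1 hxy
      simpa using this
    · intro x hx
      have hx' : x ∈ (X : Set α) := mem_coe.2 hx
      simp only [hx', dif_pos]
      exact ⟨⟨_, rfl, hg2 ⟨x, hx'⟩⟩, mem_univ _⟩
  · rintro ⟨g, hg1, hg2⟩
    have hch : ∀ x : (X : Set α), ∃ j, g x.1 = some j ∧ x.1 ∈ A j :=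
      fun x => (hg2 x.1 (mem_coe.1 x.2)).1
    choose u hu1 hu2 using hch
    refine ⟨u, ?_, hu2⟩
    intro x y hxy
    apply Subtype.ext
    apply hg1 x.2 y.2
    rw [hu1, hu1, hxy]

end Pool.Agent.X55.SMM
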