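import Pool.Agent.X55.SMM.Basic

/-!
# Strict matching matroids: the condition is necessary
-/

set_option autoImplicit false
set_option linter.unusedSectionVars false

open Finset

namespace Pool.Agent.X55.SMM

variable {α : Type} [Fintype α] [DecidableEq α]

/-- `G` has a matching which covers exactly `S` -/
def Pm (G : SimpleGraph α) (S : Finset α) : Prop :=
  ∃ σ : α → α, ∀ x ∈ S, σ x ∈ S ∧ σ (σ x) = x ∧ G.Adj x (σ x)

theorem even_of_invol (S : Finset α) (σ : α → α)
    (h : ∀ x ∈ S, σ x ∈ S ∧ σ (σ x) = x ∧ σ x ≠ x) : Even S.card := by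
  have h1 : ∑ _x ∈ S, (1 : ZMod 2) = 0 := by
    refine sum_involution (fun a _ => σ a) ?_ ?_ ?_ ?_
    · intro a ha
      exact CharTwo.add_self_eq_zero 1
    · intro a ha _
      exact (h a ha).2.2
    · intro a ha
      exact (h a ha).1
    · intro a ha
      exact (h a ha).2.1
  rw [sum_const, nsmul_eq_mul, mul_one] at h1
  exact (ZMod.natCast_eq_zero_iff_even).1 h1

theorem pm_even {G : SimpleGraph α} {S : Finset α} (h : Pm G S) : Even S.card := by
  obtain ⟨σ, hσ⟩ := h
  exact even_of_invol S σ (fun x hx => ⟨(hσ x hx).1, (hσ x hx).2.1, (hσ x hx).2.2.ne'⟩)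

theorem pm_union {G : SimpleGraph α} {S T : Finset α} (hS : Pm G S) (hT : Pm G T)
    (hd : Disjoint S T) : Pm G (S ∪ T) := by
  obtain ⟨σ, hσ⟩ := hS
  obtain ⟨τ, hτ⟩ := hT
  refine ⟨fun x => if x ∈ S then σ x else τ x, ?_⟩
  intro x hx
  by_cases hxS : x ∈ S
  · obtain ⟨h1, h2, h3⟩ := hσ x hxS
    simp only [hxS, h1, if_true]
    exact ⟨mem_union_left _ h1, h2, h3⟩
  · have hxT : x ∈ T := (mem_union.1 hx).resolve_left hxS
    obtain ⟨h1, h2, h3⟩ := hτ x hxT
    have h4 : τ x ∉ S := fun hh => (disjoint_left.1 hd hh) h1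
    simp only [hxS, h4, if_false]
    exact ⟨mem_union_right _ h1, h2, h3⟩

theorem pm_pair {G : SimpleGraph α} {x y : α} (h : G.Adj x y) : Pm G {x, y} := by
  refine ⟨Equiv.swap x y, ?_⟩
  intro z hz
  rw [mem_insert, mem_singleton] at hz
  rcases hz with rfl | rfl
  · simp [h]
  · simp [h.symm]

theorem pm_empty (G : SimpleGraph α) : Pm G ∅ := ⟨id, by simp⟩

variable {I : Finset α → Prop}

/-- the set covered by a matching which covers a base is the base -/
theorem pm_base {G : SimpleGraph α} (hI : ∀ X, I X ↔ ∃ S, X ⊆ S ∧ Pm G S) {B : Finset α}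
    (hB : Base I B) : Pm G B := by
  obtain ⟨S, hBS, hS⟩ := (hI B).1 hB.1
  have h1 : I S := (hI S).2 ⟨S, subset_rfl, hS⟩
  have h2 := hB.2 S h1
  rwa [eq_of_subset_of_card_le hBS h2]

/-- adjacent elements which are not coloops are in series -/
theorem ser_of_adj {G : SimpleGraph α} (hI : ∀ X, I X ↔ ∃ S, X ⊆ S ∧ Pm G S) {x y : α}
    (hxy : G.Adj x y) : Ser I x y := by
  intro B hB
  by_contra hcon
  push Not at hcon
  obtain ⟨hx, hy⟩ := hcon
  have h1 := pm_base hI hB
  have hd : Disjoint B {x, y} := by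
    rw [disjoint_right]
    intro z hz
    rw [mem_insert, mem_singleton] at hz
    rcases hz with rfl | rfl
    · exact hx
    · exact hy
  have h2 := pm_union h1 (pm_pair hxy) hd
  have h3 : I (B ∪ {x, y}) := (hI _).2 ⟨_, subset_rfl, h2⟩
  have h4 := hB.2 _ h3
  rw [card_union_of_disjoint hd, card_pair hxy.ne] at h4
  omega

theorem mem_cls_of_adj {G : SimpleGraph α} (hI : ∀ X, I X ↔ ∃ S, X ⊆ S ∧ Pm G S) {x y : α}
    (hxy : G.Adj x y) (hy : y ∈ D I) : y ∈ cls I x :=
  mem_cls.2 ⟨hy, Or.inr (ser_of_adj hI hxy)⟩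

/-- no series class is perfectly matched inside itself by a maximum matching -/
theorem not_perfect (h : IsMat I) {G : SimpleGraph α} (hI : ∀ X, I X ↔ ∃ S, X ⊆ S ∧ Pm G S)
    {P : Finset α} (hP : P ∈ classes I) (hpm : Pm G P) : False := by
  obtain ⟨σ, hσ⟩ := hpm
  have hPe : Even P.card := pm_even ⟨σ, hσ⟩
  obtain ⟨p, hp⟩ := classes_nonempty hP
  have hpD : p ∈ D I := classes_subset hP hp
  obtain ⟨B, hB, hpB⟩ := exists_base_notMem hpD
  obtain ⟨τ, hτ⟩ := pm_base hI hB
  have herase := erase_subset_base h hP hB hp hpB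
  -- the set covered by the new matching
  set Y : Finset α := B.filter (fun y => y ∉ P ∧ τ y ∉ P) with hY
  have hYpm : Pm G Y := by
    refine ⟨τ, ?_⟩
    intro x hx
    rw [hY, mem_filter] at hx
    obtain ⟨hxB, hx1, hx2⟩ := hx
    obtain ⟨h1, h2, h3⟩ := hτ x hxB
    refine ⟨?_, h2, h3⟩
    rw [hY, mem_filter]
    exact ⟨h1, hx2, by rw [h2]; exact hx1⟩
  have hd : Disjoint P Y := by
    rw [disjoint_right]
    intro x hx
    rw [hY, mem_filter] at hx
    exact hx.2.1
  have hX : I (P ∪ Y) := (hI _).2 ⟨_, subset_rfl, pm_union ⟨σ, hσ⟩ hYpm hd⟩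
  obtain ⟨B', hB', hs1, hs2⟩ := ext_base h hX hB
  -- all coloops and all the rest of `B` are in `B'`
  have hall : B ⊆ B' := by
    intro z hz
    by_cases hzP : z ∈ P
    · exact hs1 (mem_union_left _ hzP)
    by_cases hzt : τ z ∈ P
    · have hzL : z ∈ L I := by
        rcases mem_D_or_L I z with hh | hh
        · exfalso
          have hadj : G.Adj (τ z) z := (hτ z hz).2.2.symm
          have h5 := mem_cls_of_adj hI hadj hh
          rw [cls_eq_of_mem_classes h hP hzt] at h5
          exact hzP h5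
        · exact hh
      exact L_subset hB' hzL
    · refine hs1 (mem_union_right _ ?_)
      rw [hY, mem_filter]
      exact ⟨hz, hzP, hzt⟩
  have h6 : insert p B ⊆ B' := by
    intro z hz
    rw [mem_insert] at hz
    rcases hz with rfl | hz
    · exact hs1 (mem_union_left _ hp)
    · exact hall hz
  have h7 := card_le_card h6
  rw [card_insert_of_notMem hpB, base_card hB' hB] at h7
  omega

/-- **The condition is necessary.** -/
theorem only_if (h : IsMat I) {G : SimpleGraph α} (hI : ∀ X, I X ↔ ∃ S, X ⊆ S ∧ Pm G S)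
    {B : Finset α} (hB : Base I B) :
    Even B.card ∧ B.card ≤ 2 * ((L I).card + ∑ P ∈ classes I, (P.card - 1) / 2) := by
  have hBpm := pm_base hI hB
  refine ⟨pm_even hBpm, ?_⟩
  obtain ⟨σ, hσ⟩ := hBpm
  set Pin : Finset α → Finset α := fun P => P.filter (fun x => x ∈ B ∧ σ x ∈ P) with hPin
  have hcov : B ⊆ (L I ∪ (L I).image σ) ∪ (classes I).biUnion Pin := by
    intro x hx
    obtain ⟨h1, h2, h3⟩ := hσ x hx
    rcases mem_D_or_L I x with hxD | hxL
    · rcases mem_D_or_L I (σ x) with hyD | hyL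
      · refine mem_union_right _ ?_
        rw [mem_biUnion]
        refine ⟨cls I x, cls_mem_classes hxD, ?_⟩
        rw [hPin]
        simp only [mem_filter]
        exact ⟨self_mem_cls hxD, hx, mem_cls_of_adj hI h3 hyD⟩
      · refine mem_union_left _ (mem_union_right _ ?_)
        rw [mem_image]
        exact ⟨σ x, hyL, h2⟩
    · exact mem_union_left _ (mem_union_left _ hxL)
  have hc1 := card_le_card hcov
  have hc2 : ((L I ∪ (L I).image σ) ∪ (classes I).biUnion Pin).card ≤
      (L I).card + (L I).card + ∑ P ∈ classes I, (Pin P).card := by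
    refine (card_union_le _ _).trans ?_
    refine Nat.add_le_add ?_ card_biUnion_le
    refine (card_union_le _ _).trans ?_
    exact Nat.add_le_add le_rfl card_image_le
  have hc3 : ∑ P ∈ classes I, (Pin P).card ≤ ∑ P ∈ classes I, 2 * ((P.card - 1) / 2) := by
    refine sum_le_sum ?_
    intro P hP
    have hinv : ∀ x ∈ Pin P, σ x ∈ Pin P ∧ σ (σ x) = x ∧ G.Adj x (σ x) := by
      intro x hx
      rw [hPin] at hx ⊢
      simp only [mem_filter] at hx ⊢
      obtain ⟨hx1, hx2, hx3⟩ := hx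
      obtain ⟨h1, h2, h3⟩ := hσ x hx2
      refine ⟨⟨hx3, h1, ?_⟩, h2, h3⟩
      rw [h2]; exact hx1
    have hev : Even (Pin P).card := pm_even ⟨σ, hinv⟩
    have hsub : Pin P ⊆ P := filter_subset _ _
    have hne : Pin P ≠ P := by
      intro hh
      refine not_perfect h hI hP ⟨σ, ?_⟩
      rw [hh] at hinv
      exact hinv
    have hlt : (Pin P).card < P.card := card_lt_card (Finset.ssubset_iff_subset_ne.2 ⟨hsub, hne⟩)
    obtain ⟨k, hk⟩ := hev
    omega
  rw [← mul_sum] at hc3
  omega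

end Pool.Agent.X55.SMM
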