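import Pool.Agent.X55.SMM.Pres
import Pool.Agent.X55.SMM.Only

/-!
# Strict matching matroids: the graph
-/

set_option autoImplicit false
set_option linter.unusedSectionVars false

open Finset

namespace Pool.Agent.X55.SMM

variable {α ι : Type} [Fintype α] [DecidableEq α] [Fintype ι] [DecidableEq ι] [Nonempty ι]

theorem pm_biUnion {G : SimpleGraph α} (s : Finset (Finset α)) (U : Finset α → Finset α)
    (hd : ∀ P ∈ s, ∀ Q ∈ s, P ≠ Q → Disjoint (U P) (U Q)) (hU : ∀ P ∈ s, Pm G (U P)) :
    Pm G (s.biUnion U) := by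
  induction s using Finset.induction_on with
  | empty => simpa using pm_empty G
  | insert P s hP ih =>
    rw [biUnion_insert]
    refine pm_union (hU P (mem_insert_self P s)) (ih ?_ ?_) ?_
    · intro Q hQ Q' hQ' hne
      exact hd Q (mem_insert_of_mem hQ) Q' (mem_insert_of_mem hQ') hne
    · intro Q hQ
      exact hU Q (mem_insert_of_mem hQ)
    · rw [disjoint_biUnion_right]
      intro Q hQ
      exact hd P (mem_insert_self P s) Q (mem_insert_of_mem hQ) (fun hh => hP (hh ▸ hQ))

theorem pm_clique {G : SimpleGraph α} (S : Finset α) (hS : Even S.card)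
    (hadj : ∀ x ∈ S, ∀ y ∈ S, x ≠ y → G.Adj x y) : Pm G S := by
  induction hn : S.card using Nat.strong_induction_on generalizing S with
  | _ n ih =>
    rcases Nat.eq_zero_or_pos S.card with h0 | hpos
    · rw [card_eq_zero] at h0
      rw [h0]
      exact pm_empty G
    · have h2 : 2 ≤ S.card := by
        obtain ⟨k, hk⟩ := hS
        omega
      obtain ⟨x, hx, y, hy, hxy⟩ := one_lt_card.1 h2
      have hsub : ({x, y} : Finset α) ⊆ S := by
        intro z hz
        rw [mem_insert, mem_singleton] at hz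
        rcases hz with rfl | rfl
        · exact hx
        · exact hy
      have hc : (S \ {x, y}).card = S.card - 2 := by
        rw [card_sdiff_of_subset hsub, card_pair hxy]
      have h3 : Pm G (S \ {x, y}) := by
        refine ih (S \ {x, y}).card (by omega) _ ?_ ?_ rfl
        · rw [hc]
          obtain ⟨k, hk⟩ := hS
          exact ⟨k - 1, by omega⟩
        · intro a ha b hb hab
          exact hadj a (mem_sdiff.1 ha).1 b (mem_sdiff.1 hb).1 hab
      have h4 : S = {x, y} ∪ (S \ {x, y}) := (union_sdiff_of_subset hsub).symm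
      rw [h4]
      exact pm_union (pm_pair (hadj x hx y hy hxy)) h3 disjoint_sdiff

variable {I : Finset α → Prop} {R : α → ι → Prop} {K : Finset ι}

open Classical in
/-- the indices which are used in the graph -/
noncomputable def I0 (I : Finset α → Prop) (R : α → ι → Prop) (K : Finset ι)
    (w : Finset α → ι) : Finset ι :=
  J I R K ∪ ((classes I).filter (fun P => Even P.card)).image w

theorem mem_I0 {w : Finset α → ι} {i : ι} : i ∈ I0 I R K w ↔
    i ∈ J I R K ∨ ∃ P ∈ classes I, Even P.card ∧ w P = i := by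
  simp [I0, and_assoc]

/-- the relation which defines the graph -/
def Rel (I : Finset α → Prop) (R : α → ι → Prop) (K : Finset ι) (w : Finset α → ι)
    (hk : Finset α → α) (κ : ι → α) (x y : α) : Prop :=
  (x ∈ L I ∧ y ∈ L I) ∨
  (x ∈ D I ∧ ∃ i ∈ I0 I R K w, κ i = y ∧
    ((i ∈ J I R K ∧ ∃ p ∈ cls I x, R p i) ∨ (i = w (cls I x) ∧ Even (cls I x).card))) ∨
  (x ∈ D I ∧ y ∈ D I ∧ cls I x = cls I y ∧
    (Odd (cls I x).card ∨ (x ≠ hk (cls I x) ∧ y ≠ hk (cls I x))))

/-- the graph -/
def Gr (I : Finset α → Prop) (R : α → ι → Prop) (K : Finset ι) (w : Finset α → ι)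
    (hk : Finset α → α) (κ : ι → α) : SimpleGraph α :=
  SimpleGraph.fromRel (Rel I R K w hk κ)

/-- the assumptions on the choices -/
structure Cho (I : Finset α → Prop) (R : α → ι → Prop) (K : Finset ι) (w : Finset α → ι)
    (hk : Finset α → α) (κ : ι → α) : Prop where
  hw : ∀ P ∈ classes I, Even P.card → w P ∈ W I R K P
  hhk : ∀ P ∈ classes I, hk P ∈ P
  hκ : ∀ i ∈ I0 I R K w, κ i ∈ L I
  inj : Set.InjOn κ (I0 I R K w)
  ev : Even ((L I) \ (I0 I R K w).image κ).card

variable {w : Finset α → ι} {hk : Finset α → α} {κ : ι → α}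

theorem notMem_D_of_L {x : α} (hx : x ∈ L I) : x ∉ D I := disjoint_left.1 (disj_LD I) hx

theorem adj_DD (hc : Cho I R K w hk κ) {x y : α} (hx : x ∈ D I) (hy : y ∈ D I)
    (hadj : (Gr I R K w hk κ).Adj x y) : cls I x = cls I y ∧
      (Odd (cls I x).card ∨ (x ≠ hk (cls I x) ∧ y ≠ hk (cls I x))) := by
  rw [Gr, SimpleGraph.fromRel_adj] at hadj
  obtain ⟨_, h | h⟩ := hadj
  · rcases h with h | h | h
    · exact absurd hx (notMem_D_of_L h.1)
    · obtain ⟨_, i, hi, rfl, _⟩ := h
      exact absurd hy (notMem_D_of_L (hc.hκ i hi))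
    · exact h.2.2
  · rcases h with h | h | h
    · exact absurd hx (notMem_D_of_L h.2)
    · obtain ⟨_, i, hi, rfl, _⟩ := h
      exact absurd hx (notMem_D_of_L (hc.hκ i hi))
    · obtain ⟨_, _, h3, h4⟩ := h
      refine ⟨h3.symm, ?_⟩
      rw [← h3]
      rcases h4 with h4 | h4
      · exact Or.inl h4
      · exact Or.inr h4.symm

theorem adj_DL {x y : α} (hx : x ∈ D I) (hy : y ∉ D I)
    (hadj : (Gr I R K w hk κ).Adj x y) : ∃ i ∈ I0 I R K w, κ i = y ∧
    ((i ∈ J I R K ∧ ∃ p ∈ cls I x, R p i) ∨ (i = w (cls I x) ∧ Even (cls I x).card)) := by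
  rw [Gr, SimpleGraph.fromRel_adj] at hadj
  obtain ⟨_, h | h⟩ := hadj
  · rcases h with h | h | h
    · exact absurd hx (notMem_D_of_L h.1)
    · exact h.2
    · exact absurd h.2.1 hy
  · rcases h with h | h | h
    · exact absurd hx (notMem_D_of_L h.2)
    · exact absurd h.1 hy
    · exact absurd h.1 hy

/-- a covered set is independent -/
theorem indep_of_cov (hp : Pres I R K) (hc : Cho I R K w hk κ) {X S : Finset α} (hXS : X ⊆ S)
    (hS : Pm (Gr I R K w hk κ) S) : I X := by
  classical
  obtain ⟨σ, hσ⟩ := hS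
  rw [indep_iff_inter hp.mat, hp.char inter_subset_right]
  have key : ∀ P ∈ classes I, P ⊆ X ∩ D I → ∃ x ∈ P, ∃ i ∈ J I R K, κ i = σ x ∧
      ∃ p ∈ P, R p i := by
    intro P hP hPX
    by_contra hcon
    push Not at hcon
    have hPS : P ⊆ S := (hPX.trans inter_subset_left).trans hXS
    have hPD : P ⊆ D I := classes_subset hP
    have hcl : ∀ x ∈ P, cls I x = P := fun x hx => cls_eq_of_mem_classes hp.mat hP hx
    have hout : ∀ x ∈ P, σ x ∉ D I → κ (w P) = σ x ∧ Even P.card := by
      intro x hx hxs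
      obtain ⟨i, hi, h1, h2⟩ := adj_DL (hPD hx) hxs (hσ x (hPS hx)).2.2
      rw [hcl x hx] at h2
      rcases h2 with ⟨h3, p, hpP, h4⟩ | ⟨h3, h4⟩
      · exact absurd h4 (hcon x hx i h3 h1 p hpP)
      · rw [h3] at h1
        exact ⟨h1, h4⟩
    have hin : ∀ x ∈ P, σ x ∈ D I → σ x ∈ P ∧ (Odd P.card ∨ (x ≠ hk P ∧ σ x ≠ hk P)) := by
      intro x hx hxs
      obtain ⟨h1, h2⟩ := adj_DD hc (hPD hx) hxs (hσ x (hPS hx)).2.2
      rw [hcl x hx] at h1 h2
      refine ⟨?_, h2⟩
      rw [h1]
      exact self_mem_cls hxs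
    rcases Nat.even_or_odd P.card with hev | hodd
    · have hq := hc.hhk P hP
      have hqs : σ (hk P) ∉ D I := by
        intro hh
        rcases (hin _ hq hh).2 with h1 | h1
        · exact (Nat.not_odd_iff_even.2 hev) h1
        · exact h1.1 rfl
      have h5 := (hout _ hq hqs).1
      have h6 : Even (P.erase (hk P)).card := by
        refine even_of_invol _ σ ?_
        intro x hx
        rw [mem_erase] at hx
        obtain ⟨g1, g2, g3⟩ := hσ x (hPS hx.2)
        have h7 : σ x ∈ D I := by
          by_contra hn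
          have h8 := (hout x hx.2 hn).1
          rw [h5] at h8
          have h9 : hk P = x := by
            rw [← (hσ _ (hPS hq)).2.1, h8, g2]
          exact hx.1 h9.symm
        obtain ⟨h8, h9⟩ := hin x hx.2 h7
        refine ⟨?_, g2, g3.ne'⟩
        rw [mem_erase]
        refine ⟨?_, h8⟩
        rcases h9 with h9 | h9
        · exact absurd h9 (Nat.not_odd_iff_even.2 hev)
        · exact h9.2
      rw [card_erase_of_mem hq] at h6
      have h7 : 0 < P.card := card_pos.2 ⟨_, hq⟩
      obtain ⟨a, ha⟩ := h6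
      obtain ⟨b, hb⟩ := hev
      omega
    · have h6 : Even P.card := by
        refine even_of_invol _ σ ?_
        intro x hx
        obtain ⟨g1, g2, g3⟩ := hσ x (hPS hx)
        have h7 : σ x ∈ D I := by
          by_contra hn
          exact (Nat.not_even_iff_odd.2 hodd) (hout x hx hn).2
        exact ⟨(hin x hx h7).1, g2, g3.ne'⟩
      exact (Nat.not_even_iff_odd.2 hodd) h6
  choose! x hx i hi hxi p hpP hpi using key
  refine ⟨i, fun P hP hPX => ⟨hi P hP hPX, _, hpP P hP hPX, hpi P hP hPX⟩, ?_⟩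
  intro P hP hPX Q hQ hQX hPQ
  have h1 := hxi P hP hPX
  have h2 := hxi Q hQ hQX
  rw [hPQ, h2] at h1
  have hxP := hx P hP hPX
  have hxQ := hx Q hQ hQX
  have h3 := (hσ _ (hXS (mem_inter.1 (hPX hxP)).1)).2.1
  have h4 := (hσ _ (hXS (mem_inter.1 (hQX hxQ)).1)).2.1
  rw [← h1, h4] at h3
  rw [← h3] at hxP
  exact classes_eq hp.mat hP hQ hxP hxQ

theorem adj_J (hc : Cho I R K w hk κ) {x : α} {i : ι} (hx : x ∈ D I) (hi : i ∈ J I R K)
    (hpi : ∃ p ∈ cls I x, R p i) : (Gr I R K w hk κ).Adj x (κ i) := by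
  rw [Gr, SimpleGraph.fromRel_adj]
  have hi0 : i ∈ I0 I R K w := mem_I0.2 (Or.inl hi)
  refine ⟨?_, Or.inl (Or.inr (Or.inl ⟨hx, i, hi0, rfl, Or.inl ⟨hi, hpi⟩⟩))⟩
  intro hh
  exact (notMem_D_of_L (hc.hκ i hi0)) (hh ▸ hx)

theorem adj_W (hc : Cho I R K w hk κ) {x : α} (hx : x ∈ D I) (hev : Even (cls I x).card) :
    (Gr I R K w hk κ).Adj x (κ (w (cls I x))) := by
  rw [Gr, SimpleGraph.fromRel_adj]
  have hi0 : w (cls I x) ∈ I0 I R K w := mem_I0.2 (Or.inr ⟨_, cls_mem_classes hx, hev, rfl⟩)
  refine ⟨?_, Or.inl (Or.inr (Or.inl ⟨hx, _, hi0, rfl, Or.inr ⟨rfl, hev⟩⟩))⟩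
  intro hh
  exact (notMem_D_of_L (hc.hκ _ hi0)) (hh ▸ hx)

theorem adj_in (hp : Pres I R K) {P : Finset α} (hP : P ∈ classes I) {x y : α} (hx : x ∈ P)
    (hy : y ∈ P) (hne : x ≠ y) (h : Odd P.card ∨ (x ≠ hk P ∧ y ≠ hk P)) :
    (Gr I R K w hk κ).Adj x y := by
  rw [Gr, SimpleGraph.fromRel_adj]
  have h1 := cls_eq_of_mem_classes hp.mat hP hx
  have h2 := cls_eq_of_mem_classes hp.mat hP hy
  refine ⟨hne, Or.inl (Or.inr (Or.inr ⟨classes_subset hP hx, classes_subset hP hy, ?_, ?_⟩))⟩
  · rw [h1, h2]
  · rw [h1]; exact h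

theorem adj_LL {x y : α} (hx : x ∈ L I) (hy : y ∈ L I) (hne : x ≠ y) :
    (Gr I R K w hk κ).Adj x y := by
  rw [Gr, SimpleGraph.fromRel_adj]
  exact ⟨hne, Or.inl (Or.inl ⟨hx, hy⟩)⟩

/-- every base is covered exactly -/
theorem pm_of_base (hp : Pres I R K) (hc : Cho I R K w hk κ) {B : Finset α} (hB : Base I B) :
    Pm (Gr I R K w hk κ) B := by
  classical
  obtain ⟨β, h1, h2, h3⟩ := hp.onto hB
  have hBD : ∀ P ∈ classes I, ∀ x ∈ P ∩ B, x ∈ B ∩ D I := by
    intro P hP x hx
    rw [mem_inter] at hx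
    exact mem_inter.2 ⟨hx.2, classes_subset hP hx.1⟩
  have hJ : ∀ P ∈ classes I, ∀ x ∈ P ∩ B, β x ∉ W I R K P → β x ∈ J I R K := by
    intro P hP x hx hxW
    rw [mem_J]
    refine ⟨(h2 x (hBD P hP x hx)).2, ?_⟩
    intro Q hQ hxQ
    have hxQ' := (mem_W.1 hxQ).2 x (classes_subset hP (mem_inter.1 hx).1)
      (h2 x (hBD P hP x hx)).1
    have := classes_eq hp.mat hP hQ (mem_inter.1 hx).1 hxQ'
    rw [← this] at hxQ
    exact hxW hxQ
  have nonfull : ∀ P ∈ classes I, ¬ P ⊆ B → (P ∩ B).card = P.card - 1 ∧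
      ∀ x ∈ P ∩ B, β x ∈ W I R K P := by
    intro P hP hn
    obtain ⟨g, hg, hgB⟩ := not_subset.1 hn
    have e0 := card_inter_class hp.mat hP hB
    have e1 : (P ∩ B).card ≤ P.card - 1 := by
      rw [← card_erase_of_mem hg]
      refine card_le_card ?_
      intro x hx
      rw [mem_inter] at hx
      rw [mem_erase]
      exact ⟨fun hh => hgB (hh ▸ hx.2), hx.1⟩
    refine ⟨le_antisymm e1 e0, ?_⟩
    have e2 : W I R K P ⊆ (P ∩ B).image β := by
      intro i hi
      obtain ⟨x, hx, rfl⟩ := hp.W_pre h2 h3 hi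
      exact mem_image_of_mem _ hx
    have e3 : W I R K P = (P ∩ B).image β := by
      refine eq_of_subset_of_card_le e2 ?_
      rw [hp.W_card hP]
      exact card_image_le.trans e1
    intro x hx
    rw [e3]
    exact mem_image_of_mem _ hx
  have full : ∀ P ∈ classes I, P ⊆ B → ∃ f ∈ P, β f ∈ J I R K ∧
      ∀ x ∈ P, x ≠ f → β x ∈ W I R K P := by
    intro P hP hPB
    have hsub : P ⊆ B ∩ D I := subset_inter hPB (classes_subset hP)
    obtain ⟨f, hf, hfW⟩ : ∃ x ∈ P, β x ∉ W I R K P := by
      by_contra hcon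
      push Not at hcon
      have e1 : P.image β ⊆ W I R K P := by
        intro i hi
        obtain ⟨x, hx, rfl⟩ := mem_image.1 hi
        exact hcon x hx
      have e2 := card_le_card e1
      rw [card_image_of_injOn (h1.mono (by exact_mod_cast hsub)), hp.W_card hP] at e2
      have := card_pos.2 (classes_nonempty hP)
      omega
    refine ⟨f, hf, hJ P hP f (mem_inter.2 ⟨hf, hPB hf⟩) hfW, ?_⟩
    have e2 : W I R K P ⊆ (P.erase f).image β := by
      intro i hi
      obtain ⟨x, hx, rfl⟩ := hp.W_pre h2 h3 hi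
      refine mem_image_of_mem _ ?_
      rw [mem_erase]
      exact ⟨fun hh => hfW (hh ▸ hi), (mem_inter.1 hx).1⟩
    have e3 : W I R K P = (P.erase f).image β := by
      refine eq_of_subset_of_card_le e2 ?_
      rw [hp.W_card hP, ← card_erase_of_mem hf]
      exact card_image_le
    intro x hx hxf
    rw [e3]
    exact mem_image_of_mem _ (mem_erase.2 ⟨hxf, hx⟩)
  set F : Finset α → Finset ι := fun P => (I0 I R K w).filter (fun i => ∃ x ∈ P ∩ B, β x = i)
    with hF
  have memF : ∀ P i, i ∈ F P ↔ i ∈ I0 I R K w ∧ ∃ x ∈ P ∩ B, β x = i := by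
    intro P i
    rw [hF]
    simp only [mem_filter]
  have F1 : ∀ P ∈ classes I, ∀ i ∈ F P, (i ∈ J I R K ∨ (Even P.card ∧ w P = i)) := by
    intro P hP i hi
    rw [memF] at hi
    obtain ⟨hi0, x, hx, rfl⟩ := hi
    rcases mem_I0.1 hi0 with hh | ⟨Q, hQ, hQe, hQw⟩
    · exact Or.inl hh
    · right
      have hw := hc.hw Q hQ hQe
      rw [hQw] at hw
      have hxQ := (mem_W.1 hw).2 x (classes_subset hP (mem_inter.1 hx).1)
        (h2 x (hBD P hP x hx)).1
      have := classes_eq hp.mat hP hQ (mem_inter.1 hx).1 hxQ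
      rw [this]
      exact ⟨hQe, hQw⟩
  have F2 : ∀ P ∈ classes I, Even P.card → w P ∈ F P := by
    intro P hP hPe
    rw [memF]
    exact ⟨mem_I0.2 (Or.inr ⟨P, hP, hPe, rfl⟩), hp.W_pre h2 h3 (hc.hw P hP hPe)⟩
  have notJ : ∀ P ∈ classes I, ∀ i ∈ W I R K P, i ∉ J I R K := by
    intro P hP i hi hiJ
    exact (mem_J.1 hiJ).2 P hP hi
  have κL : ∀ P, ∀ x ∈ (F P).image κ, x ∈ L I := by
    intro P x hx
    obtain ⟨i, hi, rfl⟩ := mem_image.1 hx
    exact hc.hκ i ((memF P i).1 hi).1
  set U : Finset α → Finset α := fun P => (P ∩ B) ∪ (F P).image κ with hU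
  have hUpm : ∀ P ∈ classes I, Pm (Gr I R K w hk κ) (U P) := by
    intro P hP
    have hcl : ∀ x ∈ P, cls I x = P := fun x hx => cls_eq_of_mem_classes hp.mat hP hx
    have hPD := classes_subset hP
    have hpos : 0 < P.card := card_pos.2 (classes_nonempty hP)
    have aW : Even P.card → ∀ x ∈ P, (Gr I R K w hk κ).Adj x (κ (w P)) := by
      intro he x hx
      have h7 := adj_W hc (hPD hx) (by rw [hcl x hx]; exact he)
      rwa [hcl x hx] at h7
    have nL : ∀ x ∈ P, ∀ i ∈ I0 I R K w, x ≠ κ i := by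
      intro x hx i hi hh
      exact (notMem_D_of_L (hc.hκ i hi)) (hh ▸ hPD hx)
    by_cases hPB : P ⊆ B
    · have hPB' : P ∩ B = P := inter_eq_left.2 hPB
      obtain ⟨f, hf, hfJ, hfW⟩ := full P hP hPB
      have hf0 : β f ∈ I0 I R K w := mem_I0.2 (Or.inl hfJ)
      have aJ : ∀ x ∈ P, (Gr I R K w hk κ).Adj x (κ (β f)) := by
        intro x hx
        refine adj_J hc (hPD hx) hfJ ⟨f, ?_, (h2 f (hBD P hP f (hPB'.symm ▸ hf))).1⟩
        rw [hcl x hx]; exact hf
      have hfF : β f ∈ F P := (memF P _).2 ⟨hf0, f, hPB'.symm ▸ hf, rfl⟩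
      have F3 : ∀ i ∈ F P, i = β f ∨ (Even P.card ∧ w P = i) := by
        intro i hi
        rcases F1 P hP i hi with hh | hh
        · left
          obtain ⟨_, x, hx, rfl⟩ := (memF P i).1 hi
          by_contra hne
          have hxf : x ≠ f := fun h' => hne (by rw [h'])
          exact notJ P hP _ (hfW x (mem_inter.1 hx).1 hxf) hh
        · exact Or.inr hh
      rcases Nat.even_or_odd P.card with hev | hodd
      · have hq := hc.hhk P hP
        have hw0 : w P ∈ I0 I R K w := ((memF P _).1 (F2 P hP hev)).1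
        have hne : κ (β f) ≠ κ (w P) := by
          intro hh
          have h8 := hc.inj (mem_coe.2 hf0) (mem_coe.2 hw0) hh
          exact notJ P hP _ (hc.hw P hP hev) (h8 ▸ hfJ)
        have h2c : 2 ≤ P.card := by
          obtain ⟨k, hk⟩ := hev
          omega
        obtain ⟨t, ht⟩ : (P.erase (hk P)).Nonempty := by
          rw [← card_pos, card_erase_of_mem hq]; omega
        have htP : t ∈ P := (mem_erase.1 ht).2
        have e1 : U P = {hk P, κ (β f)} ∪ ({t, κ (w P)} ∪ ((P.erase (hk P)).erase t)) := by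
          rw [hU]
          ext x
          simp only [mem_union, mem_insert, mem_singleton, mem_erase, mem_image, hPB']
          constructor
          · rintro (hx | ⟨i, hi, rfl⟩)
            · by_cases hxq : x = hk P
              · exact Or.inl (Or.inl hxq)
              · by_cases hxt : x = t
                · exact Or.inr (Or.inl (Or.inl hxt))
                · exact Or.inr (Or.inr ⟨hxt, hxq, hx⟩)
            · rcases F3 i hi with hh | hh
              · exact Or.inl (Or.inr (by rw [hh]))
              · exact Or.inr (Or.inl (Or.inr (by rw [hh.2])))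
          · rintro ((rfl | rfl) | ((rfl | rfl) | hx))
            · exact Or.inl hq
            · exact Or.inr ⟨_, hfF, rfl⟩
            · exact Or.inl htP
            · exact Or.inr ⟨_, F2 P hP hev, rfl⟩
            · exact Or.inl hx.2.2
        rw [e1]
        refine pm_union (pm_pair (aJ _ hq)) (pm_union (pm_pair (aW hev _ htP))
          (pm_clique _ ?_ ?_) ?_) ?_
        · rw [card_erase_of_mem ht, card_erase_of_mem hq]
          obtain ⟨k, hk⟩ := hev
          exact ⟨k - 1, by omega⟩
        · intro x hx y hy hxy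
          rw [mem_erase, mem_erase] at hx hy
          exact adj_in hp hP hx.2.2 hy.2.2 hxy (Or.inr ⟨hx.2.1, hy.2.1⟩)
        · rw [disjoint_left]
          intro x hx hx'
          rw [mem_insert, mem_singleton] at hx
          rw [mem_erase, mem_erase] at hx'
          rcases hx with hx | hx
          · exact hx'.1 hx
          · exact nL x hx'.2.2 _ hw0 hx
        · rw [disjoint_left]
          intro x hx hx'
          rw [mem_insert, mem_singleton] at hx
          rw [mem_union, mem_insert, mem_singleton, mem_erase, mem_erase] at hx'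
          rcases hx with hx | hx
          · rcases hx' with (hh | hh) | hh
            · exact (mem_erase.1 ht).1 (hh.symm.trans hx)
            · exact nL x (hx ▸ hq) _ hw0 hh
            · exact hh.2.1 hx
          · rcases hx' with (hh | hh) | hh
            · exact nL x (hh ▸ htP) _ hf0 hx
            · exact hne (hx.symm.trans hh)
            · exact nL x hh.2.2 _ hf0 hx
      · have e1 : U P = {f, κ (β f)} ∪ P.erase f := by
          rw [hU]
          ext x
          simp only [mem_union, mem_insert, mem_singleton, mem_erase, mem_image, hPB']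
          constructor
          · rintro (hx | ⟨i, hi, rfl⟩)
            · by_cases hxf : x = f
              · exact Or.inl (Or.inl hxf)
              · exact Or.inr ⟨hxf, hx⟩
            · rcases F3 i hi with hh | hh
              · exact Or.inl (Or.inr (by rw [hh]))
              · exact absurd hh.1 (Nat.not_even_iff_odd.2 hodd)
          · rintro ((rfl | rfl) | hx)
            · exact Or.inl hf
            · exact Or.inr ⟨_, hfF, rfl⟩
            · exact Or.inl hx.2
        rw [e1]
        refine pm_union (pm_pair (aJ _ hf)) (pm_clique _ ?_ ?_) ?_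
        · rw [card_erase_of_mem hf]
          obtain ⟨k, hk⟩ := hodd
          exact ⟨k, by omega⟩
        · intro x hx y hy hxy
          rw [mem_erase] at hx hy
          exact adj_in hp hP hx.2 hy.2 hxy (Or.inl hodd)
        · rw [disjoint_left]
          intro x hx hx'
          rw [mem_insert, mem_singleton] at hx
          rw [mem_erase] at hx'
          rcases hx with hx | hx
          · exact hx'.1 hx
          · exact nL x hx'.2 _ hf0 hx
    · obtain ⟨hcard, hW⟩ := nonfull P hP hPB
      have F3 : ∀ i ∈ F P, Even P.card ∧ w P = i := by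
        intro i hi
        rcases F1 P hP i hi with hh | hh
        · exfalso
          obtain ⟨_, x, hx, rfl⟩ := (memF P i).1 hi
          exact notJ P hP _ (hW x hx) hh
        · exact hh
      rcases Nat.even_or_odd P.card with hev | hodd
      · have hw0 : w P ∈ I0 I R K w := ((memF P _).1 (F2 P hP hev)).1
        have h2c : 2 ≤ P.card := by
          obtain ⟨k, hk⟩ := hev
          omega
        obtain ⟨t, ht, ht'⟩ : ∃ t ∈ P ∩ B, ∀ x ∈ P ∩ B, x ≠ t → x ≠ hk P := by
          by_cases hkB : hk P ∈ B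
          · exact ⟨hk P, mem_inter.2 ⟨hc.hhk P hP, hkB⟩, fun x _ hx => hx⟩
          · obtain ⟨t, ht⟩ : (P ∩ B).Nonempty := by
              rw [← card_pos]; omega
            exact ⟨t, ht, fun x hx _ hh => hkB (hh ▸ (mem_inter.1 hx).2)⟩
        have htP : t ∈ P := (mem_inter.1 ht).1
        have e1 : U P = {t, κ (w P)} ∪ (P ∩ B).erase t := by
          rw [hU]
          ext x
          simp only [mem_union, mem_insert, mem_singleton, mem_erase, mem_image]
          constructor
          · rintro (hx | ⟨i, hi, rfl⟩)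
            · by_cases hxt : x = t
              · exact Or.inl (Or.inl hxt)
              · exact Or.inr ⟨hxt, hx⟩
            · exact Or.inl (Or.inr (by rw [(F3 i hi).2]))
          · rintro ((rfl | rfl) | hx)
            · exact Or.inl ht
            · exact Or.inr ⟨_, F2 P hP hev, rfl⟩
            · exact Or.inl hx.2
        rw [e1]
        refine pm_union (pm_pair (aW hev _ htP)) (pm_clique _ ?_ ?_) ?_
        · rw [card_erase_of_mem ht, hcard]
          obtain ⟨k, hk⟩ := hev
          exact ⟨k - 1, by omega⟩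
        · intro x hx y hy hxy
          rw [mem_erase] at hx hy
          exact adj_in hp hP (mem_inter.1 hx.2).1 (mem_inter.1 hy.2).1 hxy
            (Or.inr ⟨ht' x hx.2 hx.1, ht' y hy.2 hy.1⟩)
        · rw [disjoint_left]
          intro x hx hx'
          rw [mem_insert, mem_singleton] at hx
          rw [mem_erase] at hx'
          rcases hx with hx | hx
          · exact hx'.1 hx
          · exact nL x (mem_inter.1 hx'.2).1 _ hw0 hx
      · have e1 : U P = P ∩ B := by
          have e2 : F P = ∅ := by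
            rw [eq_empty_iff_forall_notMem]
            intro i hi
            exact (Nat.not_even_iff_odd.2 hodd) (F3 i hi).1
          rw [hU]
          simp only [e2, image_empty, union_empty]
        rw [e1]
        refine pm_clique _ ?_ ?_
        · rw [hcard]
          obtain ⟨k, hk⟩ := hodd
          exact ⟨k, by omega⟩
        · intro x hx y hy hxy
          exact adj_in hp hP (mem_inter.1 hx).1 (mem_inter.1 hy).1 hxy (Or.inl hodd)
  have hBeq : B = (L I \ (I0 I R K w).image κ) ∪ (classes I).biUnion U := by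
    ext x
    rw [mem_union, mem_sdiff, mem_biUnion]
    constructor
    · intro hx
      rcases mem_D_or_L I x with hxD | hxL
      · right
        refine ⟨cls I x, cls_mem_classes hxD, ?_⟩
        rw [hU]
        exact mem_union_left _ (mem_inter.2 ⟨self_mem_cls hxD, hx⟩)
      · by_cases hxA : x ∈ (I0 I R K w).image κ
        · right
          obtain ⟨i, hi, rfl⟩ := mem_image.1 hxA
          have hiK : i ∈ K := by
            rcases mem_I0.1 hi with hh | ⟨P, hP, hPe, rfl⟩
            · exact (mem_J.1 hh).1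
            · exact (mem_W.1 (hc.hw P hP hPe)).1
          obtain ⟨y, hy, rfl⟩ := h3 i hiK
          rw [mem_inter] at hy
          refine ⟨cls I y, cls_mem_classes hy.2, ?_⟩
          rw [hU]
          refine mem_union_right _ (mem_image_of_mem _ ?_)
          rw [memF]
          exact ⟨hi, y, mem_inter.2 ⟨self_mem_cls hy.2, hy.1⟩, rfl⟩
        · exact Or.inl ⟨hxL, hxA⟩
    · rintro (hx | ⟨P, hP, hx⟩)
      · exact L_subset hB hx.1
      · rw [hU] at hx
        rcases mem_union.1 hx with hh | hh
        · exact (mem_inter.1 hh).2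
        · exact L_subset hB (κL P x hh)
  rw [hBeq]
  refine pm_union (pm_clique _ hc.ev ?_) (pm_biUnion _ _ ?_ hUpm) ?_
  · intro x hx y hy hxy
    exact adj_LL (mem_sdiff.1 hx).1 (mem_sdiff.1 hy).1 hxy
  · intro P hP Q hQ hne
    rw [disjoint_left]
    intro x hx hx'
    rw [hU] at hx hx'
    rcases mem_union.1 hx with h5 | h5
    · rcases mem_union.1 hx' with h6 | h6
      · exact hne (classes_eq hp.mat hP hQ (mem_inter.1 h5).1 (mem_inter.1 h6).1)
      · exact (notMem_D_of_L (κL Q x h6)) (classes_subset hP (mem_inter.1 h5).1)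
    · rcases mem_union.1 hx' with h6 | h6
      · exact (notMem_D_of_L (κL P x h5)) (classes_subset hQ (mem_inter.1 h6).1)
      · obtain ⟨i, hi, hix⟩ := mem_image.1 h5
        obtain ⟨j, hj, hjx⟩ := mem_image.1 h6
        rw [memF] at hi hj
        have hij : i = j := hc.inj (mem_coe.2 hi.1) (mem_coe.2 hj.1) (hix.trans hjx.symm)
        obtain ⟨_, a, ha, hai⟩ := hi
        obtain ⟨_, b, hb, hbj⟩ := hj
        have hab : a = b := h1 (mem_coe.2 (hBD P hP a ha)) (mem_coe.2 (hBD Q hQ b hb))
          (by rw [hai, hbj, hij])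
        rw [← hab] at hb
        exact hne (classes_eq hp.mat hP hQ (mem_inter.1 ha).1 (mem_inter.1 hb).1)
  · rw [disjoint_right]
    intro x hx hx'
    obtain ⟨P, hP, hx⟩ := mem_biUnion.1 hx
    rw [mem_sdiff] at hx'
    rw [hU] at hx
    rcases mem_union.1 hx with hh | hh
    · exact (notMem_D_of_L hx'.1) (classes_subset hP (mem_inter.1 hh).1)
    · obtain ⟨i, hi, hix⟩ := mem_image.1 hh
      exact hx'.2 (mem_image.2 ⟨i, ((memF P i).1 hi).1, hix⟩)

end Pool.Agent.X55.SMM
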