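import Pool.Agent.X55.SMM.Build

/-!
# Strict matching matroids: the criterion for independence systems
-/

set_option autoImplicit false
set_option linter.unusedSectionVars false

open Finset

namespace Pool.Agent.X55.SMM

variable {α ι : Type} [Fintype α] [DecidableEq α] [Fintype ι] [DecidableEq ι] [Nonempty ι]

variable {I : Finset α → Prop} {R : α → ι → Prop}

/-- **The condition is sufficient.** -/
theorem if_dir (h : IsMat I) (hR : ∀ X, I X ↔ Mt R X univ) {B : Finset α} (hB : Base I B)
    (hev : Even B.card)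
    (hle : B.card ≤ 2 * ((L I).card + ∑ P ∈ classes I, (P.card - 1) / 2)) :
    ∃ G : SimpleGraph α, ∀ X, I X ↔ ∃ S, X ⊆ S ∧ Pm G S := by
  classical
  rcases isEmpty_or_nonempty α with hα | hα
  · refine ⟨⊥, ?_⟩
    intro X
    rw [eq_empty_of_isEmpty X]
    exact ⟨fun _ => ⟨∅, subset_rfl, pm_empty _⟩, fun _ => h.empty⟩
  obtain ⟨K, hp⟩ := exists_pres h hR
  set w : Finset α → ι := fun P => if hh : (W I R K P).Nonempty then hh.choose
    else Classical.arbitrary ι with hw
  set hk : Finset α → α := fun P => if hh : P.Nonempty then hh.choose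
    else Classical.arbitrary α with hhk
  have w1 : ∀ P ∈ classes I, Even P.card → w P ∈ W I R K P := by
    intro P hP hPe
    have h1 : (W I R K P).Nonempty := by
      rw [← card_pos, hp.W_card hP]
      have := card_pos.2 (classes_nonempty hP)
      obtain ⟨k, hk⟩ := hPe
      omega
    rw [hw]
    simp only [h1, dif_pos]
    exact h1.choose_spec
  have k1 : ∀ P ∈ classes I, hk P ∈ P := by
    intro P hP
    have h1 := classes_nonempty hP
    rw [hhk]
    simp only [h1, dif_pos]
    exact h1.choose_spec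
  set ev := (classes I).filter (fun P => Even P.card) with hevd
  have c1 : (I0 I R K w).card = (J I R K).card + ev.card := by
    have e0 : I0 I R K w = J I R K ∪ ev.image w := by
      ext i
      rw [mem_I0, mem_union, mem_image]
      constructor
      · rintro (hh | ⟨P, hP, hPe, hPw⟩)
        · exact Or.inl hh
        · exact Or.inr ⟨P, by rw [hevd, mem_filter]; exact ⟨hP, hPe⟩, hPw⟩
      · rintro (hh | ⟨P, hP, hPw⟩)
        · exact Or.inl hh
        · rw [hevd, mem_filter] at hP
          exact Or.inr ⟨P, hP.1, hP.2, hPw⟩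
    rw [e0, card_union_of_disjoint, card_image_of_injOn]
    · intro P hP Q hQ hPQ
      have hP' := mem_filter.1 (mem_coe.1 hP)
      have hQ' := mem_filter.1 (mem_coe.1 hQ)
      have h1 := w1 P hP'.1 hP'.2
      have h2 := w1 Q hQ'.1 hQ'.2
      rw [hPQ] at h1
      exact hp.W_disj hP'.1 hQ'.1 h1 h2
    · rw [disjoint_left]
      intro i hi hi'
      obtain ⟨P, hP, rfl⟩ := mem_image.1 hi'
      rw [hevd, mem_filter] at hP
      exact (mem_J.1 hi).2 P hP.1 (w1 P hP.1 hP.2)
  have c2 := hp.J_card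
  have c3 : ∑ P ∈ classes I, (P.card - 1) =
      2 * (∑ P ∈ classes I, (P.card - 1) / 2) + ev.card := by
    rw [hevd, card_filter, mul_sum, ← sum_add_distrib]
    refine sum_congr rfl ?_
    intro P hP
    have h1 := card_pos.2 (classes_nonempty hP)
    split_ifs with hh
    · obtain ⟨k, hk⟩ := hh
      omega
    · rw [Nat.not_even_iff_odd] at hh
      obtain ⟨k, hk⟩ := hh
      omega
  have c4 : B.card = (L I).card + K.card := by
    rw [base_card_split hB, hp.card B hB]
  have c5 : (I0 I R K w).card ≤ (L I).card := by omega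
  obtain ⟨A, hAL, hAc⟩ := exists_subset_card_eq c5
  set e := equivOfCardEq hAc.symm with he
  set κ : ι → α := fun i => if hh : i ∈ I0 I R K w then (e ⟨i, hh⟩ : α)
    else Classical.arbitrary α with hκ
  have κ1 : ∀ i (hi : i ∈ I0 I R K w), κ i = (e ⟨i, hi⟩ : α) := by
    intro i hi
    rw [hκ]
    simp only [hi, dif_pos]
  have κ2 : (I0 I R K w).image κ = A := by
    ext x
    rw [mem_image]
    constructor
    · rintro ⟨i, hi, rfl⟩
      rw [κ1 i hi]
      exact (e ⟨i, hi⟩).2
    · intro hx
      refine ⟨(e.symm ⟨x, hx⟩).1, (e.symm ⟨x, hx⟩).2, ?_⟩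
      rw [κ1 _ (e.symm ⟨x, hx⟩).2]
      simp
  have hc : Cho I R K w hk κ := by
    refine ⟨w1, k1, ?_, ?_, ?_⟩
    · intro i hi
      rw [κ1 i hi]
      exact hAL (e ⟨i, hi⟩).2
    · intro i hi j hj hij
      rw [mem_coe] at hi hj
      rw [κ1 i hi, κ1 j hj] at hij
      have h1 := e.injective (Subtype.ext hij)
      simpa using h1
    · rw [κ2, card_sdiff_of_subset hAL, hAc]
      obtain ⟨k, hk⟩ := hev
      exact ⟨k + (∑ P ∈ classes I, (P.card - 1) / 2) - K.card, by omega⟩
  refine ⟨Gr I R K w hk κ, ?_⟩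
  intro X
  constructor
  · intro hX
    obtain ⟨B', hB', hs⟩ := ext_base' h hX
    exact ⟨B', hs, pm_of_base hp hc hB'⟩
  · rintro ⟨S, hXS, hS⟩
    exact indep_of_cov hp hc hXS hS

/-- **The criterion.** -/
theorem criterion (h : IsMat I) (hR : ∀ X, I X ↔ Mt R X univ) {B : Finset α}
    (hB : Base I B) :
    (∃ G : SimpleGraph α, ∀ X, I X ↔ ∃ S, X ⊆ S ∧ Pm G S) ↔
    (Even B.card ∧ B.card ≤ 2 * ((L I).card + ∑ P ∈ classes I, (P.card - 1) / 2)) := by
  constructor
  · rintro ⟨G, hG⟩
    exact only_if h hG hB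
  · rintro ⟨h1, h2⟩
    exact if_dir h hR hB h1 h2

end Pool.Agent.X55.SMM
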