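import Pool.Agent.X55.SMM.Basic

/-!
# Transversal matroids: the normal form of a presentation along the series classes
-/

set_option autoImplicit false
set_option linter.unusedSectionVars false

open Finset

namespace Pool.Agent.X55.SMM

variable {α ι : Type} [Fintype α] [DecidableEq α] [Fintype ι] [DecidableEq ι] [Nonempty ι]

/-- `X` can be matched into `K` along `R` -/
def Mt (R : α → ι → Prop) (X : Finset α) (K : Finset ι) : Prop :=
  ∃ g : α → ι, Set.InjOn g X ∧ ∀ x ∈ X, R x (g x) ∧ g x ∈ K

variable {I : Finset α → Prop} {R : α → ι → Prop}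

/-- a presentation of the part without coloops with as many sets as the rank -/
theorem exists_K (h : IsMat I) (hR : ∀ X, I X ↔ Mt R X univ) {B : Finset α} (hB : Base I B) :
    ∃ K : Finset ι, K.card = (B ∩ D I).card ∧ ∀ Y ⊆ D I, (I Y ↔ Mt R Y K) := by
  classical
  obtain ⟨g0, hg0, hg0'⟩ := (hR _).1 (h.sub _ _ hB.1 (inter_subset_left (s₂ := D I)))
  refine ⟨(B ∩ D I).image g0, card_image_of_injOn hg0, ?_⟩
  set K : Finset ι := (B ∩ D I).image g0 with hKdef
  have hKc : K.card = (B ∩ D I).card := card_image_of_injOn hg0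
  intro Y hY
  constructor
  swap
  · rintro ⟨g, h1, h2⟩
    exact (hR Y).2 ⟨g, h1, fun x hx => ⟨(h2 x hx).1, mem_univ _⟩⟩
  intro hIY
  obtain ⟨g, hg, hg'⟩ := (hR Y).1 hIY
  have hall : ∀ s : Finset Y, s.card ≤ (s.biUnion (fun x : Y => K.filter (R x.1))).card := by
    intro s
    by_contra hcon
    push Not at hcon
    set S : Finset α := s.map (Function.Embedding.subtype _) with hS
    have hSc : S.card = s.card := card_map _
    have hSY : S ⊆ Y := by
      intro x hx
      rw [hS, mem_map] at hx
      obtain ⟨y, _, rfl⟩ := hx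
      exact y.2
    set N : Finset ι := univ.filter (fun i => ∃ x ∈ S, R x i) with hN
    have hun : s.biUnion (fun x : Y => K.filter (R x.1)) = K ∩ N := by
      ext i
      rw [mem_biUnion, mem_inter, hN, mem_filter]
      constructor
      · rintro ⟨x, hx, hi⟩
        rw [mem_filter] at hi
        refine ⟨hi.1, mem_univ _, x.1, ?_, hi.2⟩
        rw [hS, mem_map]
        exact ⟨x, hx, rfl⟩
      · rintro ⟨hi, _, x, hx, hxi⟩
        rw [hS, mem_map] at hx
        obtain ⟨y, hy, rfl⟩ := hx
        exact ⟨y, hy, mem_filter.2 ⟨hi, hxi⟩⟩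
    rw [hun] at hcon
    set Y' : Finset α := (B ∩ D I).filter (fun y => g0 y ∉ N) with hY'
    have hY'c : Y'.card = (K \ N).card := by
      have e1 : Y'.image g0 = K \ N := by
        ext i
        rw [mem_image, mem_sdiff, hKdef, mem_image]
        constructor
        · rintro ⟨y, hy, rfl⟩
          rw [hY', mem_filter] at hy
          exact ⟨⟨y, hy.1, rfl⟩, hy.2⟩
        · rintro ⟨⟨y, hy, rfl⟩, hn⟩
          exact ⟨y, by rw [hY', mem_filter]; exact ⟨hy, hn⟩, rfl⟩
      rw [← e1, card_image_of_injOn]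
      exact hg0.mono (by
        intro x hx
        rw [hY'] at hx
        exact_mod_cast (mem_filter.1 (mem_coe.1 hx)).1)
    have hgN : ∀ x ∈ S, g x ∈ N := by
      intro x hx
      rw [hN, mem_filter]
      exact ⟨mem_univ _, x, hx, (hg' x (hSY hx)).1⟩
    have hdis : Disjoint S Y' := by
      rw [disjoint_left]
      intro x hx hx'
      rw [hY', mem_filter] at hx'
      apply hx'.2
      rw [hN, mem_filter]
      exact ⟨mem_univ _, x, hx, (hg0' x hx'.1).1⟩
    have hI : I (S ∪ Y') := by
      rw [hR]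
      refine ⟨fun x => if x ∈ S then g x else g0 x, ?_, ?_⟩
      · intro x hx y hy hxy
        rw [mem_coe, mem_union] at hx hy
        simp only at hxy
        by_cases hxS : x ∈ S
        · by_cases hyS : y ∈ S
          · simp only [hxS, hyS, if_true] at hxy
            exact hg (mem_coe.2 (hSY hxS)) (mem_coe.2 (hSY hyS)) hxy
          · simp only [hxS, hyS, if_true, if_false] at hxy
            exfalso
            have hy' := hy.resolve_left hyS
            rw [hY', mem_filter] at hy'
            exact hy'.2 (hxy ▸ hgN x hxS)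
        · have hx' := hx.resolve_left hxS
          rw [hY', mem_filter] at hx'
          by_cases hyS : y ∈ S
          · simp only [hxS, hyS, if_true, if_false] at hxy
            exfalso
            exact hx'.2 (hxy ▸ hgN y hyS)
          · simp only [hxS, hyS, if_false] at hxy
            have hy' := hy.resolve_left hyS
            rw [hY', mem_filter] at hy'
            exact hg0 (mem_coe.2 hx'.1) (mem_coe.2 hy'.1) hxy
      · intro x hx
        rw [mem_union] at hx
        by_cases hxS : x ∈ S
        · simp only [hxS, if_true]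
          exact ⟨(hg' x (hSY hxS)).1, mem_univ _⟩
        · have hx' := hx.resolve_left hxS
          rw [hY', mem_filter] at hx'
          simp only [hxS, if_false]
          exact ⟨(hg0' x hx'.1).1, mem_univ _⟩
    have hsub : S ∪ Y' ⊆ D I := by
      intro x hx
      rw [mem_union] at hx
      rcases hx with hx | hx
      · exact hY (hSY hx)
      · rw [hY', mem_filter, mem_inter] at hx
        exact hx.1.2
    have hle := card_le_of_subset_D h hB hI hsub
    rw [card_union_of_disjoint hdis, hY'c, ← hKc] at hle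
    have h9 := card_sdiff_add_card_inter K N
    omega
  obtain ⟨f, hf1, hf2⟩ := (all_card_le_biUnion_card_iff_exists_injective _).1 hall
  refine ⟨fun x => if hx : x ∈ Y then f ⟨x, hx⟩ else Classical.arbitrary ι, ?_, ?_⟩
  · intro x hx y hy hxy
    rw [mem_coe] at hx hy
    simp only [hx, hy, dif_pos] at hxy
    have := hf1 hxy
    simpa using this
  · intro x hx
    simp only [hx, dif_pos]
    have := hf2 ⟨x, hx⟩
    rw [mem_filter] at this
    exact ⟨this.2, this.1⟩

/-- the standing assumptions on `K` -/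
structure Pres (I : Finset α → Prop) (R : α → ι → Prop) (K : Finset ι) : Prop where
  mat : IsMat I
  mt : ∀ Y ⊆ D I, (I Y ↔ Mt R Y K)
  card : ∀ B, Base I B → (B ∩ D I).card = K.card

theorem exists_pres (h : IsMat I) (hR : ∀ X, I X ↔ Mt R X univ) : ∃ K, Pres I R K := by
  obtain ⟨B, hB⟩ := exists_base h
  obtain ⟨K, hK1, hK2⟩ := exists_K h hR hB
  refine ⟨K, h, hK2, ?_⟩
  intro B' hB'
  rw [hK1]
  have h1 := base_card_split hB
  have h2 := base_card_split hB'
  have h3 := base_card hB hB'
  omega

variable {K : Finset ι}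

theorem Pres.onto (hp : Pres I R K) {B : Finset α} (hB : Base I B) :
    ∃ β : α → ι, Set.InjOn β (B ∩ D I : Finset α) ∧ (∀ x ∈ B ∩ D I, R x (β x) ∧ β x ∈ K) ∧
      ∀ i ∈ K, ∃ x ∈ B ∩ D I, β x = i := by
  obtain ⟨β, h1, h2⟩ := (hp.mt _ inter_subset_right).1
    (hp.mat.sub _ _ hB.1 (inter_subset_left (s₂ := D I)))
  refine ⟨β, h1, h2, ?_⟩
  have h3 : (B ∩ D I).image β = K := by
    refine eq_of_subset_of_card_le ?_ ?_
    · intro i hi
      obtain ⟨x, hx, rfl⟩ := mem_image.1 hi
      exact (h2 x hx).2
    · rw [card_image_of_injOn h1, hp.card B hB]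
  intro i hi
  rw [← h3, mem_image] at hi
  exact hi

open Classical in
/-- the indices which are only related to elements of `P` -/
noncomputable def W (I : Finset α → Prop) (R : α → ι → Prop) (K : Finset ι) (P : Finset α) :
    Finset ι := K.filter (fun i => ∀ x ∈ D I, R x i → x ∈ P)

theorem mem_W {P : Finset α} {i : ι} : i ∈ W I R K P ↔ i ∈ K ∧ ∀ x ∈ D I, R x i → x ∈ P := by
  simp [W]

theorem Pres.W_pre (_hp : Pres I R K) {P : Finset α} {B : Finset α}
    {β : α → ι} (h2 : ∀ x ∈ B ∩ D I, R x (β x) ∧ β x ∈ K)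
    (h3 : ∀ i ∈ K, ∃ x ∈ B ∩ D I, β x = i) {i : ι} (hi : i ∈ W I R K P) :
    ∃ x ∈ P ∩ B, β x = i := by
  rw [mem_W] at hi
  obtain ⟨x, hx, rfl⟩ := h3 i hi.1
  refine ⟨x, ?_, rfl⟩
  rw [mem_inter] at hx ⊢
  exact ⟨hi.2 x hx.2 (h2 x (mem_inter.2 hx)).1, hx.1⟩

theorem Pres.W_le (hp : Pres I R K) {P : Finset α} (hP : P ∈ classes I) :
    (W I R K P).card ≤ P.card - 1 := by
  obtain ⟨p, hpP⟩ := classes_nonempty hP
  obtain ⟨B, hB, hpB⟩ := exists_base_notMem (classes_subset hP hpP)
  obtain ⟨β, h1, h2, h3⟩ := hp.onto hB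
  have h4 : W I R K P ⊆ (P.erase p).image β := by
    intro i hi
    obtain ⟨x, hx, rfl⟩ := hp.W_pre h2 h3 hi
    rw [mem_inter] at hx
    refine mem_image.2 ⟨x, ?_, rfl⟩
    rw [mem_erase]
    exact ⟨fun hh => hpB (hh ▸ hx.2), hx.1⟩
  have h5 := card_le_card h4
  have h6 : ((P.erase p).image β).card ≤ (P.erase p).card := card_image_le
  rw [card_erase_of_mem hpP] at h6
  omega

theorem Pres.W_ge (hp : Pres I R K) {P : Finset α} (hP : P ∈ classes I) :
    P.card - 1 ≤ (W I R K P).card := by
  classical
  by_contra hcon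
  push Not at hcon
  obtain ⟨n, hn⟩ : ∃ n, P.card = n + 2 := ⟨P.card - 2, by omega⟩
  have hPD := classes_subset hP
  set t : K → Finset (α ⊕ Fin n) := fun i =>
    ((D I \ P).filter (fun x => R x i.1)).map Function.Embedding.inl ∪
      (univ : Finset (Fin n)).map Function.Embedding.inr with ht
  by_cases hall : ∀ s : Finset K, s.card ≤ (s.biUnion t).card
  · obtain ⟨f, hf1, hf2⟩ := (all_card_le_biUnion_card_iff_exists_injective t).1 hall
    set Z : Finset α := (D I \ P).filter (fun x => ∃ i, f i = Sum.inl x) with hZ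
    have hZc : K.card ≤ Z.card + n := by
      have e1 : (univ : Finset K).image f ⊆ Z.map Function.Embedding.inl ∪
          (univ : Finset (Fin n)).map Function.Embedding.inr := by
        intro y hy
        obtain ⟨i, _, rfl⟩ := mem_image.1 hy
        have h5 := hf2 i
        rw [ht] at h5
        simp only [mem_union, mem_map, mem_filter, mem_univ, true_and] at h5
        rw [mem_union, mem_map, mem_map]
        rcases h5 with ⟨x, hx, hxf⟩ | ⟨j, hj⟩
        · left
          refine ⟨x, ?_, hxf⟩
          rw [hZ, mem_filter]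
          exact ⟨hx.1, i, hxf.symm⟩
        · right
          exact ⟨j, mem_univ _, hj⟩
      have e2 := card_le_card e1
      rw [card_image_of_injective _ hf1, card_univ, Fintype.card_coe] at e2
      refine e2.trans ((card_union_le _ _).trans ?_)
      rw [card_map, card_map, card_univ, Fintype.card_fin]
    have hZD : Z ⊆ D I := by
      intro x hx
      rw [hZ, mem_filter, mem_sdiff] at hx
      exact hx.1.1
    have hZI : I Z := by
      rw [hp.mt _ hZD]
      have hch : ∀ x ∈ Z, ∃ i : K, f i = Sum.inl x := by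
        intro x hx
        rw [hZ, mem_filter] at hx
        exact hx.2
      choose v hv using hch
      refine ⟨fun x => if hx : x ∈ Z then (v x hx).1 else Classical.arbitrary ι, ?_, ?_⟩
      · intro x hx y hy hxy
        rw [mem_coe] at hx hy
        simp only [hx, hy, dif_pos] at hxy
        have hx' := hv x hx
        have hy' := hv y hy
        have := Subtype.ext hxy
        rw [this] at hx'
        rw [hx'] at hy'
        exact Sum.inl_injective hy'
      · intro x hx
        simp only [hx, dif_pos]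
        have hx' := hv x hx
        refine ⟨?_, (v x hx).2⟩
        have h5 := hf2 (v x hx)
        rw [hx', ht] at h5
        simp only [mem_union, mem_map, mem_filter, mem_univ, true_and] at h5
        rcases h5 with ⟨y, hy, hyx⟩ | ⟨j, hj⟩
        · have h6 : y = x := Sum.inl_injective hyx
          have h7 := hy.2
          rw [h6] at h7
          exact h7
        · exact absurd hj (by simp)
    obtain ⟨B, hB, hZB⟩ := ext_base' hp.mat hZI
    have h6 := hp.card B hB
    have h7 := card_inter_class hp.mat hP hB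
    have h8 : Disjoint Z (P ∩ B) := by
      rw [disjoint_left]
      intro x hx hx'
      rw [hZ, mem_filter, mem_sdiff] at hx
      exact hx.1.2 (mem_inter.1 hx').1
    have h9 : Z ∪ (P ∩ B) ⊆ B ∩ D I := by
      intro x hx
      rw [mem_union, mem_inter] at hx
      rw [mem_inter]
      rcases hx with hx | hx
      · exact ⟨hZB hx, hZD hx⟩
      · exact ⟨hx.2, hPD hx.1⟩
    have h10 := card_le_card h9
    rw [card_union_of_disjoint h8] at h10
    omega
  · push Not at hall
    obtain ⟨s, hs⟩ := hall
    have hsne : s.Nonempty := by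
      rw [← card_pos]; omega
    set Z : Finset ι := s.map (Function.Embedding.subtype _) with hZ
    have hZc : Z.card = s.card := card_map _
    have hZK : Z ⊆ K := by
      intro x hx
      rw [hZ, mem_map] at hx
      obtain ⟨y, _, rfl⟩ := hx
      exact y.2
    set X : Finset α := (D I \ P).filter (fun x => ∃ i ∈ Z, R x i) with hX
    have hXc : X.card + n ≤ (s.biUnion t).card := by
      have e1 : X.map Function.Embedding.inl ∪ (univ : Finset (Fin n)).map Function.Embedding.inr
          ⊆ s.biUnion t := by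
        intro y hy
        rw [mem_union, mem_map, mem_map] at hy
        rw [mem_biUnion]
        rcases hy with ⟨x, hx, rfl⟩ | ⟨j, _, rfl⟩
        · rw [hX, mem_filter] at hx
          obtain ⟨hx1, i, hi, hxi⟩ := hx
          rw [hZ, mem_map] at hi
          obtain ⟨i', hi', rfl⟩ := hi
          refine ⟨i', hi', ?_⟩
          rw [ht]
          simp only [mem_union, mem_map, mem_filter]
          left
          exact ⟨x, ⟨hx1, hxi⟩, rfl⟩
        · obtain ⟨i', hi'⟩ := hsne
          refine ⟨i', hi', ?_⟩
          rw [ht]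
          simp only [mem_union, mem_map, mem_univ, true_and]
          right
          exact ⟨j, rfl⟩
      have e2 := card_le_card e1
      rw [card_union_of_disjoint, card_map, card_map, card_univ, Fintype.card_fin] at e2
      · exact e2
      · rw [disjoint_left]
        intro y hy hy'
        obtain ⟨a, _, rfl⟩ := mem_map.1 hy
        obtain ⟨b, _, hb⟩ := mem_map.1 hy'
        exact absurd hb (by simp)
    have hXP : Disjoint X P := by
      rw [disjoint_left]
      intro x hx hx'
      rw [hX, mem_filter, mem_sdiff] at hx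
      exact hx.1.2 hx'
    have hXD : X ⊆ D I := by
      intro x hx
      rw [hX, mem_filter, mem_sdiff] at hx
      exact hx.1.1
    have hZle : ∀ B, Base I B → Z.card ≤ ((X ∪ P) ∩ B).card := by
      intro B hB
      obtain ⟨β, h1, h2, h3⟩ := hp.onto hB
      have e1 : Z ⊆ ((X ∪ P) ∩ B).image β := by
        intro i hi
        obtain ⟨x, hx, rfl⟩ := h3 i (hZK hi)
        refine mem_image.2 ⟨x, ?_, rfl⟩
        have hx' := mem_inter.1 hx
        rw [mem_inter, mem_union]
        refine ⟨?_, hx'.1⟩
        by_cases hxP : x ∈ P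
        · exact Or.inr hxP
        · left
          rw [hX, mem_filter, mem_sdiff]
          exact ⟨⟨hx'.2, hxP⟩, β x, hi, (h2 x hx).1⟩
      exact (card_le_card e1).trans card_image_le
    have hXe : X = ∅ := by
      by_contra hne
      obtain ⟨x, hx⟩ := nonempty_iff_ne_empty.2 hne
      obtain ⟨p, hpP⟩ := classes_nonempty hP
      have hxP : x ∉ P := disjoint_left.1 hXP hx
      have hser : Ser I p x := by
        intro B hB
        by_contra hc
        push Not at hc
        have hle := hZle B hB
        have e1 : (X ∪ P) ∩ B ⊆ (X.erase x) ∪ (P.erase p) := by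
          intro y hy
          rw [mem_inter, mem_union] at hy
          rw [mem_union, mem_erase, mem_erase]
          rcases hy.1 with hh | hh
          · left; exact ⟨fun h' => hc.2 (h' ▸ hy.2), hh⟩
          · right; exact ⟨fun h' => hc.1 (h' ▸ hy.2), hh⟩
        have e2 := (card_le_card e1).trans (card_union_le _ _)
        rw [card_erase_of_mem hx, card_erase_of_mem hpP] at e2
        have hXpos : 0 < X.card := card_pos.2 ⟨x, hx⟩
        omega
      have h11 : x ∈ cls I p := mem_cls.2 ⟨hXD hx, Or.inr hser⟩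
      rw [cls_eq_of_mem_classes hp.mat hP hpP] at h11
      exact hxP h11
    have hZW : Z ⊆ W I R K P := by
      intro i hi
      rw [mem_W]
      refine ⟨hZK hi, ?_⟩
      intro x hxD hxi
      by_contra hxP
      have : x ∈ X := by
        rw [hX, mem_filter, mem_sdiff]
        exact ⟨⟨hxD, hxP⟩, i, hi, hxi⟩
      rw [hXe] at this
      exact absurd this (notMem_empty x)
    have h12 := card_le_card hZW
    omega

theorem Pres.W_card (hp : Pres I R K) {P : Finset α} (hP : P ∈ classes I) :
    (W I R K P).card = P.card - 1 := le_antisymm (hp.W_le hP) (hp.W_ge hP)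

theorem Pres.W_match (hp : Pres I R K) {P : Finset α} (hP : P ∈ classes I) {p : α}
    (hpP : p ∈ P) : ∃ g : α → ι, Set.InjOn g (P.erase p) ∧
      ∀ x ∈ P.erase p, R x (g x) ∧ g x ∈ W I R K P := by
  obtain ⟨B, hB, hpB⟩ := exists_base_notMem (classes_subset hP hpP)
  obtain ⟨β, h1, h2, h3⟩ := hp.onto hB
  have hsub := erase_subset_base hp.mat hP hB hpP hpB
  have hsub' : P.erase p ⊆ B ∩ D I := subset_inter hsub
    ((erase_subset p P).trans (classes_subset hP))
  have h4 : W I R K P ⊆ (P.erase p).image β := by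
    intro i hi
    obtain ⟨x, hx, rfl⟩ := hp.W_pre h2 h3 hi
    rw [mem_inter] at hx
    refine mem_image.2 ⟨x, ?_, rfl⟩
    rw [mem_erase]
    exact ⟨fun hh => hpB (hh ▸ hx.2), hx.1⟩
  have h5 : W I R K P = (P.erase p).image β := by
    refine eq_of_subset_of_card_le h4 ?_
    rw [hp.W_card hP, ← card_erase_of_mem hpP]
    exact card_image_le
  refine ⟨β, h1.mono (by exact_mod_cast hsub'), ?_⟩
  intro x hx
  refine ⟨(h2 x (hsub' hx)).1, ?_⟩
  rw [h5]
  exact mem_image_of_mem _ hx

theorem Pres.W_disj (hp : Pres I R K) {P Q : Finset α} (hP : P ∈ classes I)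
    (hQ : Q ∈ classes I) {i : ι} (h1 : i ∈ W I R K P) (h2 : i ∈ W I R K Q) : P = Q := by
  obtain ⟨B, hB⟩ := exists_base hp.mat
  obtain ⟨β, _, h4, h5⟩ := hp.onto hB
  obtain ⟨x, hx, rfl⟩ := h5 i (mem_W.1 h1).1
  have hxR := (h4 x hx).1
  have hxD := (mem_inter.1 hx).2
  exact classes_eq hp.mat hP hQ ((mem_W.1 h1).2 x hxD hxR) ((mem_W.1 h2).2 x hxD hxR)

/-- the indices outside of all `W P` -/
noncomputable def J (I : Finset α → Prop) (R : α → ι → Prop) (K : Finset ι) : Finset ι :=
  K \ (classes I).biUnion (W I R K)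

theorem mem_J {i : ι} : i ∈ J I R K ↔ i ∈ K ∧ ∀ P ∈ classes I, i ∉ W I R K P := by
  simp [J, mem_sdiff, mem_biUnion]

theorem Pres.J_card (hp : Pres I R K) :
    (J I R K).card + ∑ P ∈ classes I, (P.card - 1) = K.card := by
  have h1 : (classes I).biUnion (W I R K) ⊆ K := by
    intro i hi
    obtain ⟨P, _, hi⟩ := mem_biUnion.1 hi
    exact (mem_W.1 hi).1
  have h2 : ((classes I).biUnion (W I R K)).card = ∑ P ∈ classes I, (P.card - 1) := by
    rw [card_biUnion]
    · exact sum_congr rfl (fun P hP => hp.W_card hP)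
    · intro P hP Q hQ hne
      show Disjoint (W I R K P) (W I R K Q)
      rw [disjoint_left]
      intro i h3 h4
      exact hne (hp.W_disj hP hQ h3 h4)
  rw [← h2, J, card_sdiff_of_subset h1]
  have := card_le_card h1
  omega

/-- the structure of the independent sets -/
theorem Pres.char (hp : Pres I R K) {Y : Finset α} (hY : Y ⊆ D I) :
    I Y ↔ ∃ σ : Finset α → ι,
      (∀ P ∈ classes I, P ⊆ Y → σ P ∈ J I R K ∧ ∃ x ∈ P, R x (σ P)) ∧
      ∀ P ∈ classes I, P ⊆ Y → ∀ Q ∈ classes I, Q ⊆ Y → σ P = σ Q → P = Q := by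
  classical
  constructor
  · intro hI
    obtain ⟨B, hB, hYB⟩ := ext_base' hp.mat hI
    obtain ⟨β, h1, h2, h3⟩ := hp.onto hB
    have key : ∀ P ∈ classes I, P ⊆ Y → ∃ x ∈ P, β x ∈ J I R K := by
      intro P hP hPY
      have hsub : P ⊆ B ∩ D I := subset_inter (hPY.trans hYB) (classes_subset hP)
      obtain ⟨x, hx, hxW⟩ : ∃ x ∈ P, β x ∉ W I R K P := by
        by_contra hcon
        push Not at hcon
        have e1 : P.image β ⊆ W I R K P := by
          intro i hi
          obtain ⟨x, hx, rfl⟩ := mem_image.1 hi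
          exact hcon x hx
        have e2 := card_le_card e1
        rw [card_image_of_injOn (h1.mono (by exact_mod_cast hsub)), hp.W_card hP] at e2
        have := card_pos.2 (classes_nonempty hP)
        omega
      refine ⟨x, hx, ?_⟩
      rw [mem_J]
      refine ⟨(h2 x (hsub hx)).2, ?_⟩
      intro Q hQ hxQ
      have hxQ' := (mem_W.1 hxQ).2 x (classes_subset hP hx) (h2 x (hsub hx)).1
      have := classes_eq hp.mat hP hQ hx hxQ'
      rw [← this] at hxQ
      exact hxW hxQ
    choose u hu1 hu2 using key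
    have hval : ∀ P (hP : P ∈ classes I) (hPY : P ⊆ Y), (if hPP : P ∈ classes I ∧ P ⊆ Y then
        β (u P hPP.1 hPP.2) else Classical.arbitrary ι) = β (u P hP hPY) := by
      intro P hP hPY
      rw [dif_pos ⟨hP, hPY⟩]
    refine ⟨fun P => if hPP : P ∈ classes I ∧ P ⊆ Y then
        β (u P hPP.1 hPP.2) else Classical.arbitrary ι, ?_, ?_⟩
    · intro P hP hPY
      simp only [hval P hP hPY]
      have g1 := hu1 P hP hPY
      exact ⟨hu2 P hP hPY, u P hP hPY, g1,
        (h2 _ (mem_inter.2 ⟨hYB (hPY g1), classes_subset hP g1⟩)).1⟩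
    · intro P hP hPY Q hQ hQY hPQ
      simp only [hval P hP hPY, hval Q hQ hQY] at hPQ
      have g1 := hu1 P hP hPY
      have g3 := hu1 Q hQ hQY
      have e1 : u P hP hPY ∈ B ∩ D I := mem_inter.2 ⟨hYB (hPY g1), classes_subset hP g1⟩
      have e2 : u Q hQ hQY ∈ B ∩ D I := mem_inter.2 ⟨hYB (hQY g3), classes_subset hQ g3⟩
      have e3 : u P hP hPY = u Q hQ hQY := h1 (mem_coe.2 e1) (mem_coe.2 e2) hPQ
      rw [← e3] at g3
      exact classes_eq hp.mat hP hQ g1 g3
  · rintro ⟨σ, h1, h2⟩
    rw [hp.mt Y hY]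
    -- the pivots
    have hpiv : ∀ P ∈ classes I, ∃ q ∈ P, (P ⊆ Y → R q (σ P)) ∧ (¬ P ⊆ Y → q ∉ Y) := by
      intro P hP
      by_cases hPY : P ⊆ Y
      · obtain ⟨_, x, hx, hxR⟩ := h1 P hP hPY
        exact ⟨x, hx, fun _ => hxR, fun hn => absurd hPY hn⟩
      · obtain ⟨x, hx, hxY⟩ := not_subset.1 hPY
        exact ⟨x, hx, fun hn => absurd hn hPY, fun _ => hxY⟩
    have hg : ∀ P ∈ classes I, ∀ q ∈ P, ∃ g : α → ι, Set.InjOn g (P.erase q) ∧
        ∀ x ∈ P.erase q, R x (g x) ∧ g x ∈ W I R K P := fun P hP q hq => hp.W_match hP hq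
    choose q hq1 hq2 hq3 using hpiv
    choose g hg1 hg2 using hg
    have hqc : ∀ P Q (hP : P ∈ classes I) (hQ : Q ∈ classes I), P = Q → q P hP = q Q hQ := by
      rintro P _ hP hQ rfl
      rfl
    set G : α → ι := fun x => if hx : x ∈ D I then
      (if x = q (cls I x) (cls_mem_classes hx) then σ (cls I x)
        else g (cls I x) (cls_mem_classes hx) _ (hq1 (cls I x) (cls_mem_classes hx)) x)
      else Classical.arbitrary ι with hG
    have hG1 : ∀ x ∈ Y, ∀ P, ∀ hP : P ∈ classes I, x ∈ P → x = q P hP →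
        P ⊆ Y ∧ G x = σ P := by
      intro x hx P hP hxP hxq
      have hxD := hY hx
      have hc := cls_eq_of_mem_classes hp.mat hP hxP
      subst hc
      constructor
      · by_contra hn
        exact hq3 _ hP hn (hxq ▸ hx)
      · rw [hG]
        simp only [hxD, dif_pos]
        rw [if_pos hxq]
    have hG2 : ∀ x ∈ Y, ∀ P, ∀ hP : P ∈ classes I, x ∈ P → x ≠ q P hP →
        G x = g P hP _ (hq1 P hP) x := by
      intro x hx P hP hxP hxq
      have hxD := hY hx
      have hc := cls_eq_of_mem_classes hp.mat hP hxP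
      subst hc
      rw [hG]
      simp only [hxD, dif_pos]
      rw [if_neg hxq]
    refine ⟨G, ?_, ?_⟩
    · intro x hx y hy hxy
      rw [mem_coe] at hx hy
      have hxc := cls_mem_classes (hY hx)
      have hyc := cls_mem_classes (hY hy)
      have hxm := self_mem_cls (hY hx)
      have hym := self_mem_cls (hY hy)
      by_cases hxq : x = q _ hxc
      · obtain ⟨hx1, hx2⟩ := hG1 x hx _ hxc hxm hxq
        by_cases hyq : y = q _ hyc
        · obtain ⟨hy1, hy2⟩ := hG1 y hy _ hyc hym hyq
          rw [hx2, hy2] at hxy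
          have hPQ := h2 _ hxc hx1 _ hyc hy1 hxy
          exact hxq.trans ((hqc _ _ hxc hyc hPQ).trans hyq.symm)
        · exfalso
          have hy2 := hG2 y hy _ hyc hym hyq
          have h5 := (hg2 _ hyc _ (hq1 _ hyc) y (mem_erase.2 ⟨hyq, hym⟩)).2
          rw [← hy2, ← hxy, hx2] at h5
          exact (mem_J.1 (h1 _ hxc hx1).1).2 _ hyc h5
      · have hx2 := hG2 x hx _ hxc hxm hxq
        have h5 := (hg2 _ hxc _ (hq1 _ hxc) x (mem_erase.2 ⟨hxq, hxm⟩)).2
        by_cases hyq : y = q _ hyc
        · exfalso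
          obtain ⟨hy1, hy2⟩ := hG1 y hy _ hyc hym hyq
          rw [← hx2, hxy, hy2] at h5
          exact (mem_J.1 (h1 _ hyc hy1).1).2 _ hxc h5
        · have hy2 := hG2 y hy _ hyc hym hyq
          have h6 := (hg2 _ hyc _ (hq1 _ hyc) y (mem_erase.2 ⟨hyq, hym⟩)).2
          rw [← hy2, ← hxy, hx2] at h6
          have hPQ := hp.W_disj hxc hyc h5 h6
          have hyP : y ∈ cls I x := hPQ ▸ hym
          have hyq' : y ≠ q _ hxc := by
            intro hh
            exact hyq (hh.trans (hqc _ _ hxc hyc hPQ))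
          have hy3 := hG2 y hy _ hxc hyP hyq'
          rw [hx2, hy3] at hxy
          exact hg1 _ hxc _ (hq1 _ hxc) (mem_coe.2 (mem_erase.2 ⟨hxq, hxm⟩))
            (mem_coe.2 (mem_erase.2 ⟨hyq', hyP⟩)) hxy
    · intro x hx
      have hxc := cls_mem_classes (hY hx)
      have hxm := self_mem_cls (hY hx)
      by_cases hxq : x = q _ hxc
      · obtain ⟨hx1, hx2⟩ := hG1 x hx _ hxc hxm hxq
        rw [hx2]
        refine ⟨?_, (mem_J.1 (h1 _ hxc hx1).1).1⟩
        have := hq2 _ hxc hx1
        rw [← hxq] at this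
        exact this
      · rw [hG2 x hx _ hxc hxm hxq]
        have h5 := hg2 _ hxc _ (hq1 _ hxc) x (mem_erase.2 ⟨hxq, hxm⟩)
        exact ⟨h5.1, (mem_W.1 h5.2).1⟩

end Pool.Agent.X55.SMM
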